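import Pool.Agent.helper22.DL.SpecE2
import Pool.Agent.helper89.DL.WI

namespace Pool.Agent.DL

open Matrix Complex MeasureTheory Set Filter Topology
open scoped ComplexOrder Manifold ContDiff ComplexConjugate

noncomputable section

set_option linter.unusedSimpArgs false
set_option linter.unusedTactic false
set_option linter.unreachableTactic false

def EHL_N : Matrix (Fin 3) (Fin 3) ℂ := !![0, 1, 0; 0, 0, -1; 0, 0, 0]
def EHL_E : Matrix (Fin 3) (Fin 3) ℂ := !![1, 0, 0; 0, 0, 0; 0, 0, -1]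
def EHL_D (h k : ℂ) : Matrix (Fin 3) (Fin 3) ℂ := !![h, 0, 0; 0, 1, 0; 0, 0, k]
def EHL_M (l m c : ℂ) : Matrix (Fin 3) (Fin 3) ℂ := !![l, m, 0; c, 0, -m; 0, -c, -l]
def EHL_B (b x y : ℂ) : Matrix (Fin 3) (Fin 3) ℂ := !![b, x, y; 1, -2 * b, x; 0, 1, b]
def EHL_Bs (b x y h k : ℂ) : Matrix (Fin 3) (Fin 3) ℂ :=
  !![conj b, k, 0; h * conj x, -2 * conj b, k; h ^ 2 * conj y, h * conj x, conj b]

lemma EHL_H3 (L : ℝ) (b : ℂ) : H3 L b = (uu b)ᴴ * EHL_D (Real.exp L) (Real.exp (-L)) * uu b := by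
  have : (Matrix.diagonal ![(Real.exp L : ℂ), 1, (Real.exp (-L) : ℂ)] : Matrix (Fin 3) (Fin 3) ℂ) =
      EHL_D (Real.exp L) (Real.exp (-L)) := by
    ext i j
    fin_cases i <;> fin_cases j <;> simp [EHL_D, Matrix.diagonal]
  unfold H3
  rw [this]

lemma EHL_inv1 (b : ℂ) : uu b * uu (-b) = 1 := by
  ext i j
  fin_cases i <;> fin_cases j <;> simp [uu, Matrix.mul_apply, Fin.sum_univ_three]; ring

lemma EHL_inv2 (b : ℂ) : uu (-b) * uu b = 1 := by
  have := EHL_inv1 (-b)
  rwa [neg_neg] at this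

lemma EHL_Ncomm (b : ℂ) : EHL_N * uu b = uu b * EHL_N := by
  ext i j
  fin_cases i <;> fin_cases j <;> simp [uu, EHL_N, Matrix.mul_apply, Fin.sum_univ_three]

lemma EHL_UA (p r b : ℂ) : uu b * A3 p r = EHL_B b (xx p b) (yy p r b) * uu b := by
  ext i j
  fin_cases i <;> fin_cases j <;>
    simp [uu, A3, EHL_B, xx, yy, Matrix.mul_apply, Fin.sum_univ_three] <;> ring

lemma EHL_DB (b x y h : ℂ) (k : ℂ) (hk : h * k = 1) :
    EHL_D h k * EHL_Bs b x y h k = (EHL_B b x y)ᴴ * EHL_D h k := by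
  ext i j
  fin_cases i <;> fin_cases j <;>
    simp [EHL_D, EHL_B, EHL_Bs, Matrix.mul_apply, Fin.sum_univ_three, Matrix.conjTranspose_apply]
  all_goals first
    | linear_combination (0 : ℂ) * hk
    | linear_combination hk
    | linear_combination (h * conj y) * hk
    | linear_combination (conj x) * hk
    | linear_combination (conj y * h) * hk
    | (left; exact (Complex.conj_ofNat 2).symm)

/-- the bracket -/
lemma EHL_br (b x y h k : ℂ) (hk : h * k = 1) :
    EHL_B b x y * EHL_Bs b x y h k - EHL_Bs b x y h k * EHL_B b x y =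
      EHL_M (h * (x * conj x) + h ^ 2 * (y * conj y) - k) (k * (3 * b - 3 * h * conj b * x + h ^ 2 * y * conj x))
        (3 * conj b - 3 * h * b * conj x + h ^ 2 * conj y * x) := by
  ext i j
  fin_cases i <;> fin_cases j <;>
    simp [EHL_B, EHL_Bs, EHL_M, Matrix.mul_apply, Fin.sum_univ_three]
  all_goals first
    | ring1
    | linear_combination (3 * conj b * x - h * y * conj x) * hk
    | linear_combination (-(3 * conj b * x - h * y * conj x)) * hk

lemma EHL_MN (l m c β l' m' c' : ℂ) :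
    -(β • (EHL_N * EHL_M l m c)) + EHL_M l' m' c' + β • (EHL_M l m c * EHL_N) =
      EHL_M (l' - β * c) (m' + β * l) c' := by
  ext i j
  fin_cases i <;> fin_cases j <;>
    simp [EHL_N, EHL_M, Matrix.mul_apply, Fin.sum_univ_three]
  all_goals ring

lemma EHL_DM (l m β h k : ℂ) (hk : h * k = 1) :
    conj β • (EHL_Nᴴ * EHL_D h k) + l • (EHL_E * EHL_D h k) + m • (EHL_D h k * EHL_N) =
      EHL_D h k * EHL_M l m (h * conj β) := by
  ext i j
  fin_cases i <;> fin_cases j <;>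
    simp [EHL_N, EHL_M, EHL_D, EHL_E, Matrix.mul_apply, Fin.sum_univ_three, Matrix.conjTranspose_apply]
  all_goals first
    | ring1
    | linear_combination (conj β) * hk
    | linear_combination (-(conj β)) * hk

/-! ### derivatives -/

lemma EHL_WI {f : ℂ → ℂ} {z : ℂ} (h : ContDiffAt ℝ 2 f z) (ε : ℂ) : ContDiffAt ℝ 1 (fun w => WIdd ε f w) z := by
  have h1 : ContDiffAt ℝ 1 (fderiv ℝ f) z := h.fderiv_right (by norm_num)
  have h2 : ∀ v : ℂ, ContDiffAt ℝ 1 (fun z => fderiv ℝ f z v) z := fun v => h1.clm_apply contDiffAt_const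
  unfold WIdd
  exact ((h2 1).add (contDiffAt_const.mul (contDiffAt_const.mul (h2 I)))).div_const 2

lemma EHL_fd {f : ℂ → ℂ} {z : ℂ} (h : ContDiffAt ℝ 2 f z) (ε v : ℂ) :
    fderiv ℝ (fun w => WIdd ε f w) z v =
      (fderiv ℝ (fderiv ℝ f) z v 1 + ε * (I * fderiv ℝ (fderiv ℝ f) z v I)) / 2 := by
  have h1 : ContDiffAt ℝ 1 (fderiv ℝ f) z := h.fderiv_right (by norm_num)
  have h2 : HasFDerivAt (fderiv ℝ f) (fderiv ℝ (fderiv ℝ f) z) z :=
    (h1.differentiableAt (by norm_num)).hasFDerivAt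
  have hd : ∀ e : ℂ, HasFDerivAt (fun w => fderiv ℝ f w e) ((fderiv ℝ (fderiv ℝ f) z).flip e) z := by
    intro e
    have h7 := h2.clm_apply (hasFDerivAt_const e z)
    rw [ContinuousLinearMap.comp_zero, zero_add] at h7
    exact h7
  have h3 := (((hd 1).add ((hd I).const_mul (ε * I))).const_mul (1 / 2 : ℂ))
  have h4 : HasFDerivAt (fun w => WIdd ε f w) ((1 / 2 : ℂ) • ((fderiv ℝ (fderiv ℝ f) z).flip 1 +
      (ε * I) • (fderiv ℝ (fderiv ℝ f) z).flip I)) z := by
    refine h3.congr_of_eventuallyEq (Filter.Eventually.of_forall fun w => ?_)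
    simp only [WIdd, Pi.add_apply]
    ring
  rw [h4.fderiv]
  simp only [_root_.smul_apply, _root_.add_apply, ContinuousLinearMap.flip_apply, smul_eq_mul]
  ring

lemma EHL_comm {f : ℂ → ℂ} {z : ℂ} (h : ContDiffAt ℝ 2 f z) (ε ε' : ℂ) :
    WIdd ε (fun w => WIdd ε' f w) z = WIdd ε' (fun w => WIdd ε f w) z := by
  have hsym : fderiv ℝ (fderiv ℝ f) z 1 I = fderiv ℝ (fderiv ℝ f) z I 1 := by
    have := h.isSymmSndFDerivAt (by simp)
    exact this 1 I
  have e1 : WIdd ε (fun w => WIdd ε' f w) z = (fderiv ℝ (fun w => WIdd ε' f w) z 1 +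
    ε * (I * fderiv ℝ (fun w => WIdd ε' f w) z I)) / 2 := rfl
  have e2 : WIdd ε' (fun w => WIdd ε f w) z = (fderiv ℝ (fun w => WIdd ε f w) z 1 +
    ε' * (I * fderiv ℝ (fun w => WIdd ε f w) z I)) / 2 := rfl
  rw [e1, e2, EHL_fd h, EHL_fd h, EHL_fd h, EHL_fd h, hsym]
  ring

lemma EHL_neg {f : ℂ → ℂ} {z : ℂ} (ε : ℂ) : WIdd ε (fun w => -f w) z = -WIdd ε f z := by
  have h : fderiv ℝ (fun w => -f w) z = -fderiv ℝ f z := by
    have := fderiv_neg (𝕜 := ℝ) (f := f) (x := z)
    exact this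
  simp only [WIdd, h, _root_.neg_apply]
  ring

lemma EHL_sq {f : ℂ → ℂ} {z : ℂ} (hf : DifferentiableAt ℝ f z) (ε : ℂ) :
    WIdd ε (fun w => -(f w ^ 2 / 2)) z = -(f z * WIdd ε f z) := by
  have h1 : (fun w => -(f w ^ 2 / 2)) = fun w => -((1 / 2 : ℂ) * (f w * f w)) := by funext w; ring
  have h2 := WIdd_mul (ε := ε) (f := fun _ => (1 / 2 : ℂ)) (g := fun w => f w * f w) (z := z)
    (differentiableAt_const _) (hf.mul hf)
  rw [h1, EHL_neg, h2, WIdd_const, WIdd_mul hf hf]
  ring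

lemma EHL_uuD {b : ℂ → ℂ} {z : ℂ} (hb : DifferentiableAt ℝ b z) : WID (fun w => uu (b w)) z := by
  have h2 : DifferentiableAt ℝ (fun w => -(b w ^ 2 / 2)) z := by
    have h3 : DifferentiableAt ℝ (fun w => -((1 / 2 : ℂ) * (b w * b w))) z :=
      ((differentiableAt_const _).mul (hb.mul hb)).neg
    exact h3.congr_of_eventuallyEq (Filter.Eventually.of_forall fun w => by ring)
  intro i j
  fin_cases i <;> fin_cases j
  all_goals first
    | exact differentiableAt_const _
    | exact hb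
    | exact hb.neg
    | exact h2

lemma EHL_uu {b : ℂ → ℂ} {z : ℂ} (hb : DifferentiableAt ℝ b z) (ε : ℂ) :
    WImd ε (fun w => uu (b w)) z = WIdd ε b z • (EHL_N * uu (b z)) := by
  ext i j
  fin_cases i <;> fin_cases j
  · show WIdd ε (fun _ => 1) z = _
    rw [WIdd_const]; simp [EHL_N, uu, Matrix.mul_apply, Fin.sum_univ_three]
  · show WIdd ε (fun w => b w) z = _
    simp [EHL_N, uu, Matrix.mul_apply, Fin.sum_univ_three]
  · show WIdd ε (fun w => -(b w ^ 2 / 2)) z = _
    rw [EHL_sq hb]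
    simp [EHL_N, uu, Matrix.mul_apply, Fin.sum_univ_three]; ring
  · show WIdd ε (fun _ => 0) z = _
    rw [WIdd_const]; simp [EHL_N, uu, Matrix.mul_apply, Fin.sum_univ_three]
  · show WIdd ε (fun _ => 1) z = _
    rw [WIdd_const]; simp [EHL_N, uu, Matrix.mul_apply, Fin.sum_univ_three]
  · show WIdd ε (fun w => -b w) z = _
    rw [EHL_neg]
    simp [EHL_N, uu, Matrix.mul_apply, Fin.sum_univ_three]
  · show WIdd ε (fun _ => 0) z = _
    rw [WIdd_const]; simp [EHL_N, uu, Matrix.mul_apply, Fin.sum_univ_three]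
  · show WIdd ε (fun _ => 0) z = _
    rw [WIdd_const]; simp [EHL_N, uu, Matrix.mul_apply, Fin.sum_univ_three]
  · show WIdd ε (fun _ => 1) z = _
    rw [WIdd_const]; simp [EHL_N, uu, Matrix.mul_apply, Fin.sum_univ_three]

/-- derivative of `exp (c L)` -/
lemma EHL_exp {L : ℂ → ℝ} {z : ℂ} (hL : DifferentiableAt ℝ L z) (ε : ℂ) (c : ℝ) :
    WIdd ε (fun w => ((Real.exp (c * L w) : ℝ) : ℂ)) z = c * (Real.exp (c * L z) : ℂ) * WIdd ε (fun w => ((L w : ℝ) : ℂ)) z := by
  have h1 : HasFDerivAt (fun w => ((L w : ℝ) : ℂ)) (Complex.ofRealCLM.comp (fderiv ℝ L z)) z :=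
    Complex.ofRealCLM.hasFDerivAt.comp z hL.hasFDerivAt
  have h2 : HasFDerivAt (fun w => ((Real.exp (c * L w) : ℝ) : ℂ))
      (Complex.ofRealCLM.comp (Real.exp (c * L z) • (c • fderiv ℝ L z))) z :=
    Complex.ofRealCLM.hasFDerivAt.comp z ((hL.hasFDerivAt.const_mul c).exp)
  simp only [WIdd, h1.fderiv, h2.fderiv, ContinuousLinearMap.comp_apply, Complex.ofRealCLM_apply,
    _root_.smul_apply, smul_eq_mul]
  push_cast
  ring

lemma EHL_exp1 {L : ℂ → ℝ} {z : ℂ} (hL : DifferentiableAt ℝ L z) (ε : ℂ) :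
    WIdd ε (fun w => ((Real.exp (L w) : ℝ) : ℂ)) z = (Real.exp (L z) : ℂ) * WIdd ε (fun w => ((L w : ℝ) : ℂ)) z := by
  have := EHL_exp hL ε 1
  simpa using this

lemma EHL_expn {L : ℂ → ℝ} {z : ℂ} (hL : DifferentiableAt ℝ L z) (ε : ℂ) :
    WIdd ε (fun w => ((Real.exp (-L w) : ℝ) : ℂ)) z = -((Real.exp (-L z) : ℂ) * WIdd ε (fun w => ((L w : ℝ) : ℂ)) z) := by
  have := EHL_exp hL ε (-1)
  simpa using this

lemma EHL_DD {L : ℂ → ℝ} {z : ℂ} (hL : DifferentiableAt ℝ L z) :
    WID (fun w => EHL_D (Real.exp (L w)) (Real.exp (-L w))) z := by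
  have h1 : DifferentiableAt ℝ (fun w => ((Real.exp (L w) : ℝ) : ℂ)) z :=
    Complex.ofRealCLM.differentiableAt.comp z hL.exp
  have h2 : DifferentiableAt ℝ (fun w => ((Real.exp (-L w) : ℝ) : ℂ)) z :=
    Complex.ofRealCLM.differentiableAt.comp z hL.neg.exp
  intro i j
  fin_cases i <;> fin_cases j
  all_goals first
    | exact differentiableAt_const _
    | exact h1
    | exact h2

lemma EHL_Dd {L : ℂ → ℝ} {z : ℂ} (hL : DifferentiableAt ℝ L z) (ε : ℂ) :
    WImd ε (fun w => EHL_D (Real.exp (L w)) (Real.exp (-L w))) z =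
      WIdd ε (fun w => ((L w : ℝ) : ℂ)) z • (EHL_E * EHL_D (Real.exp (L z)) (Real.exp (-L z))) := by
  ext i j
  fin_cases i <;> fin_cases j
  · show WIdd ε (fun w => ((Real.exp (L w) : ℝ) : ℂ)) z = _
    rw [EHL_exp1 hL]
    simp [EHL_E, EHL_D, Matrix.mul_apply, Fin.sum_univ_three]; ring
  · show WIdd ε (fun _ => 0) z = _
    rw [WIdd_const]; simp [EHL_E, EHL_D, Matrix.mul_apply, Fin.sum_univ_three]
  · show WIdd ε (fun _ => 0) z = _
    rw [WIdd_const]; simp [EHL_E, EHL_D, Matrix.mul_apply, Fin.sum_univ_three]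
  · show WIdd ε (fun _ => 0) z = _
    rw [WIdd_const]; simp [EHL_E, EHL_D, Matrix.mul_apply, Fin.sum_univ_three]
  · show WIdd ε (fun _ => 1) z = _
    rw [WIdd_const]; simp [EHL_E, EHL_D, Matrix.mul_apply, Fin.sum_univ_three]
  · show WIdd ε (fun _ => 0) z = _
    rw [WIdd_const]; simp [EHL_E, EHL_D, Matrix.mul_apply, Fin.sum_univ_three]
  · show WIdd ε (fun _ => 0) z = _
    rw [WIdd_const]; simp [EHL_E, EHL_D, Matrix.mul_apply, Fin.sum_univ_three]
  · show WIdd ε (fun _ => 0) z = _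
    rw [WIdd_const]; simp [EHL_E, EHL_D, Matrix.mul_apply, Fin.sum_univ_three]
  · show WIdd ε (fun w => ((Real.exp (-L w) : ℝ) : ℂ)) z = _
    rw [EHL_expn hL]
    simp [EHL_E, EHL_D, Matrix.mul_apply, Fin.sum_univ_three]; ring

lemma EHL_MD {l m c : ℂ → ℂ} {z : ℂ} (hl : DifferentiableAt ℝ l z) (hm : DifferentiableAt ℝ m z)
    (hc : DifferentiableAt ℝ c z) : WID (fun w => EHL_M (l w) (m w) (c w)) z := by
  intro i j
  fin_cases i <;> fin_cases j
  all_goals first
    | exact differentiableAt_const _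
    | exact hl
    | exact hm
    | exact hc
    | exact hl.neg
    | exact hm.neg
    | exact hc.neg

lemma EHL_Md {l m c : ℂ → ℂ} {z : ℂ} (ε : ℂ) :
    WImd ε (fun w => EHL_M (l w) (m w) (c w)) z = EHL_M (WIdd ε l z) (WIdd ε m z) (WIdd ε c z) := by
  ext i j
  fin_cases i <;> fin_cases j
  · rfl
  · rfl
  · exact WIdd_const _ _ _
  · rfl
  · exact WIdd_const _ _ _
  · exact EHL_neg ε
  · exact WIdd_const _ _ _
  · exact EHL_neg ε
  · exact EHL_neg ε

lemma EHL_smooth {Ω : Set ℂ} {L : ℂ → ℝ} {b : ℂ → ℂ} (sL : ContDiffOn ℝ 2 L Ω) (sb : ContDiffOn ℝ 2 b Ω) :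
    WIC 2 Ω (fun w => H3 (L w) (b w)) := by
  have hU : WIC 2 Ω (fun w => uu (b w)) := by
    have h2 : ContDiffOn ℝ 2 (fun w => -(b w ^ 2 / 2)) Ω := ((sb.pow 2).div_const 2).neg
    intro i j
    fin_cases i <;> fin_cases j
    all_goals first
      | exact contDiffOn_const
      | exact sb
      | exact sb.neg
      | exact h2
  have hD : WIC 2 Ω (fun w => EHL_D (Real.exp (L w)) (Real.exp (-L w))) := by
    have h1 : ContDiffOn ℝ 2 (fun w => ((Real.exp (L w) : ℝ) : ℂ)) Ω :=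
      Complex.ofRealCLM.contDiff.comp_contDiffOn sL.exp
    have h2 : ContDiffOn ℝ 2 (fun w => ((Real.exp (-L w) : ℝ) : ℂ)) Ω :=
      Complex.ofRealCLM.contDiff.comp_contDiffOn sL.neg.exp
    intro i j
    fin_cases i <;> fin_cases j
    all_goals first
      | exact contDiffOn_const
      | exact h1
      | exact h2
  have h := WIC_mul (WIC_mul (WIC_star hU) hD) hU
  intro i j
  exact (h i j).congr fun w _ => congrFun (congrFun (EHL_H3 (L w) (b w)) i) j

theorem EHL (hNA : ENA_stmt) (hLW : LW_stmt) : EHL_stmt := by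
  intro Ω W p r L b hΩ hp hr hS
  have cL : ∀ w ∈ Ω, ContDiffAt ℝ 2 L w := fun w hw => hS.sL.contDiffAt (hΩ.mem_nhds hw)
  have cb : ∀ w ∈ Ω, ContDiffAt ℝ 2 b w := fun w hw => hS.sb.contDiffAt (hΩ.mem_nhds hw)
  have cLc : ∀ w ∈ Ω, ContDiffAt ℝ 2 (fun v => ((L v : ℝ) : ℂ)) w := fun w hw =>
    Complex.ofRealCLM.contDiff.contDiffAt.comp w (cL w hw)
  have dL : ∀ w ∈ Ω, DifferentiableAt ℝ L w := fun w hw => (cL w hw).differentiableAt (by norm_num)
  have db : ∀ w ∈ Ω, DifferentiableAt ℝ b w := fun w hw => (cb w hw).differentiableAt (by norm_num)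
  set l : ℂ → ℂ := fun w => WIdd (-1) (fun v => ((L v : ℝ) : ℂ)) w with hl
  set m : ℂ → ℂ := fun w => WIdd (-1) b w with hm
  set β : ℂ → ℂ := fun w => WIdd 1 b w with hβ
  set h : ℂ → ℂ := fun w => ((Real.exp (L w) : ℝ) : ℂ) with hh
  set k : ℂ → ℂ := fun w => ((Real.exp (-L w) : ℝ) : ℂ) with hk
  have dl : ∀ w ∈ Ω, DifferentiableAt ℝ l w := fun w hw => (EHL_WI (cLc w hw) (-1)).differentiableAt (by norm_num)
  have dm : ∀ w ∈ Ω, DifferentiableAt ℝ m w := fun w hw => (EHL_WI (cb w hw) (-1)).differentiableAt (by norm_num)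
  have dβ : ∀ w ∈ Ω, DifferentiableAt ℝ β w := fun w hw => (EHL_WI (cb w hw) 1).differentiableAt (by norm_num)
  have dh : ∀ w ∈ Ω, DifferentiableAt ℝ h w := fun w hw =>
    Complex.ofRealCLM.differentiableAt.comp w (dL w hw).exp
  have hhk : ∀ w, h w * k w = 1 := by
    intro w
    simp only [hh, hk]
    rw [← Complex.ofReal_mul, ← Real.exp_add, add_neg_cancel, Real.exp_zero, Complex.ofReal_one]
  have hcj : ∀ w, conj (h w) = h w := fun w => Complex.conj_ofReal _
  set U : ℂ → Matrix (Fin 3) (Fin 3) ℂ := fun w => uu (b w) with hU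
  set V : ℂ → Matrix (Fin 3) (Fin 3) ℂ := fun w => uu (-b w) with hV
  have UV : ∀ w, U w * V w = 1 := fun w => EHL_inv1 (b w)
  have VU : ∀ w, V w * U w = 1 := fun w => EHL_inv2 (b w)
  have hH : ∀ w, H3 (L w) (b w) = (U w)ᴴ * EHL_D (h w) (k w) * U w := fun w => EHL_H3 (L w) (b w)
  have hdet : ∀ w, IsUnit (H3 (L w) (b w)).det := by
    intro w
    rw [(hNA (p w) (r w) (L w) (b w)).2.1]
    exact isUnit_one
  -- the connection
  have conn : ∀ w ∈ Ω, (H3 (L w) (b w))⁻¹ * mdz (fun w => H3 (L w) (b w)) w =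
      V w * EHL_M (l w) (m w) (h w * conj (β w)) * U w := by
    intro w hw
    have hfun : (fun w => H3 (L w) (b w)) = fun w => (U w)ᴴ * EHL_D (h w) (k w) * U w := funext hH
    have dU : WID U w := EHL_uuD (db w hw)
    have dU' : WID (fun w => (U w)ᴴ) w := WID_star dU
    have dD : WID (fun w => EHL_D (h w) (k w)) w := EHL_DD (dL w hw)
    have hst := WImd_star (-1) dU
    push_cast at hst
    rw [neg_neg] at hst
    have eU : ∀ ε, WImd ε U w = WIdd ε b w • (EHL_N * U w) := fun ε => EHL_uu (db w hw) ε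
    have eD : WImd (-1) (fun w => EHL_D (h w) (k w)) w = l w • (EHL_E * EHL_D (h w) (k w)) :=
      EHL_Dd (dL w hw) (-1)
    have h1 : mdz (fun w => H3 (L w) (b w)) w =
        H3 (L w) (b w) * (V w * EHL_M (l w) (m w) (h w * conj (β w)) * U w) := by
      rw [WI_mdz, hfun, WImd_mul (WID_mul dU' dD) dU, WImd_mul dU' dD, hst, eU, eU, eD, hH w]
      have e1 : (WIdd 1 b w • (EHL_N * U w))ᴴ = conj (β w) • ((U w)ᴴ * EHL_Nᴴ) := by
        rw [Matrix.conjTranspose_smul, Matrix.conjTranspose_mul]; rfl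
      rw [e1]
      have e2 : (conj (β w) • ((U w)ᴴ * EHL_Nᴴ) * EHL_D (h w) (k w) +
          (U w)ᴴ * l w • (EHL_E * EHL_D (h w) (k w))) * U w +
          (U w)ᴴ * EHL_D (h w) (k w) * (WIdd (-1) b w • (EHL_N * U w)) =
          (U w)ᴴ * (conj (β w) • (EHL_Nᴴ * EHL_D (h w) (k w)) + l w • (EHL_E * EHL_D (h w) (k w)) +
            m w • (EHL_D (h w) (k w) * EHL_N)) * U w := by
        simp only [Matrix.mul_add, Matrix.add_mul, Matrix.smul_mul, Matrix.mul_smul, Matrix.mul_assoc, hm]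
      rw [e2, EHL_DM (l w) (m w) (β w) (h w) (k w) (hhk w)]
      have e3 : (U w)ᴴ * EHL_D (h w) (k w) * U w * (V w * EHL_M (l w) (m w) (h w * conj (β w)) * U w) =
          (U w)ᴴ * EHL_D (h w) (k w) * (U w * V w) * (EHL_M (l w) (m w) (h w * conj (β w)) * U w) := by
        simp only [Matrix.mul_assoc]
      rw [e3, UV w, Matrix.mul_one]
      simp only [Matrix.mul_assoc]
    rw [h1, Matrix.nonsing_inv_mul_cancel_left _ _ (hdet w)]
  refine ⟨fun z _ => (hNA (p z) (r z) (L z) (b z)).1, ?_, ?_⟩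
  · intro i j
    exact_mod_cast EHL_smooth hS.sL hS.sb i j
  · intro z hz
    have dU : WID U z := EHL_uuD (db z hz)
    have dV : WID V z := EHL_uuD (db z hz).neg
    have dc : DifferentiableAt ℝ (fun w => h w * conj (β w)) z :=
      (dh z hz).mul ((conjCLE : ℂ →L[ℝ] ℂ).differentiableAt.comp z (dβ z hz))
    have dM : WID (fun w => EHL_M (l w) (m w) (h w * conj (β w))) z := EHL_MD (dl z hz) (dm z hz) dc
    have eU : WImd 1 U z = β z • (EHL_N * U z) := EHL_uu (db z hz) 1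
    have eV : WImd 1 V z = -(β z • (EHL_N * V z)) := by
      have h1 := EHL_uu (b := fun w => -b w) (z := z) (db z hz).neg 1
      rw [EHL_neg] at h1
      rw [← neg_smul]
      exact h1
    have NV : EHL_N * V z = V z * EHL_N := EHL_Ncomm _
    set l' : ℂ := WIdd 1 l z with hl'
    set m' : ℂ := WIdd 1 m z with hm'
    set c' : ℂ := WIdd 1 (fun w => h w * conj (β w)) z with hc'
    set x : ℂ := xx (p z) (b z) with hx
    set y : ℂ := yy (p z) (r z) (b z) with hy
    have lhs : mdzb (fun w => (H3 (L w) (b w))⁻¹ * mdz (fun w => H3 (L w) (b w)) w) z =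
        V z * EHL_M (l' - β z * (h z * conj (β z))) (m' + β z * l z) c' * U z := by
      rw [WI_mdzb, WImd_congr (G := fun w => V w * EHL_M (l w) (m w) (h w * conj (β w)) * U w)
        (by filter_upwards [hΩ.mem_nhds hz] with w hw; exact conn w hw),
        WImd_mul (WID_mul dV dM) dU, WImd_mul dV dM, eU, eV, NV, EHL_Md, ← EHL_MN (l z) (m z) (h z * conj (β z)) (β z) l' m' c']
      simp only [Matrix.mul_add, Matrix.add_mul, Matrix.smul_mul, Matrix.mul_smul, Matrix.mul_assoc,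
        Matrix.neg_mul, Matrix.mul_neg]
      rfl
    -- right hand side
    have hA : A3 (p z) (r z) = V z * EHL_B (b z) x y * U z := by
      have h1 : V z * (U z * A3 (p z) (r z)) = V z * (EHL_B (b z) x y * U z) := by
        rw [show U z * A3 (p z) (r z) = EHL_B (b z) x y * U z from EHL_UA (p z) (r z) (b z)]
      rw [← Matrix.mul_assoc, VU z, Matrix.one_mul, ← Matrix.mul_assoc] at h1
      exact h1
    have hadj : adj (H3 (L z) (b z)) (A3 (p z) (r z)) = V z * EHL_Bs (b z) x y (h z) (k z) * U z := by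
      have h1 : (A3 (p z) (r z))ᴴ * H3 (L z) (b z) = H3 (L z) (b z) * (V z * EHL_Bs (b z) x y (h z) (k z) * U z) := by
        rw [hH z]
        have e3 : (U z)ᴴ * EHL_D (h z) (k z) * U z * (V z * EHL_Bs (b z) x y (h z) (k z) * U z) =
            (U z)ᴴ * EHL_D (h z) (k z) * (U z * V z) * (EHL_Bs (b z) x y (h z) (k z) * U z) := by
          simp only [Matrix.mul_assoc]
        have e4 : (U z)ᴴ * EHL_D (h z) (k z) * (EHL_Bs (b z) x y (h z) (k z) * U z) =
            (U z)ᴴ * (EHL_D (h z) (k z) * EHL_Bs (b z) x y (h z) (k z)) * U z := by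
          simp only [Matrix.mul_assoc]
        have e5 : (A3 (p z) (r z))ᴴ * (U z)ᴴ = (U z)ᴴ * (EHL_B (b z) x y)ᴴ := by
          rw [← Matrix.conjTranspose_mul, ← Matrix.conjTranspose_mul,
            show U z * A3 (p z) (r z) = EHL_B (b z) x y * U z from EHL_UA (p z) (r z) (b z)]
        rw [e3, UV z, Matrix.mul_one, e4, EHL_DB (b z) x y (h z) (k z) (hhk z), ← Matrix.mul_assoc, ← Matrix.mul_assoc,
          e5]
        simp only [Matrix.mul_assoc]
      unfold adj
      rw [Matrix.mul_assoc, h1, Matrix.nonsing_inv_mul_cancel_left _ _ (hdet z)]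
    have hbr : A3 (p z) (r z) * adj (H3 (L z) (b z)) (A3 (p z) (r z)) -
        adj (H3 (L z) (b z)) (A3 (p z) (r z)) * A3 (p z) (r z) =
        V z * (EHL_B (b z) x y * EHL_Bs (b z) x y (h z) (k z) - EHL_Bs (b z) x y (h z) (k z) * EHL_B (b z) x y) * U z := by
      rw [hadj, hA]
      have e3 : ∀ P Q : Matrix (Fin 3) (Fin 3) ℂ, V z * P * U z * (V z * Q * U z) = V z * (P * Q) * U z := by
        intro P Q
        have : V z * P * U z * (V z * Q * U z) = V z * P * (U z * V z) * (Q * U z) := by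
          simp only [Matrix.mul_assoc]
        rw [this, UV z, Matrix.mul_one]
        simp only [Matrix.mul_assoc]
      rw [e3, e3, ← Matrix.sub_mul, ← Matrix.mul_sub]
    -- scalar identities
    have s1 : l' - β z * (h z * conj (β z)) = (W z : ℂ) * (h z * (x * conj x) + h z ^ 2 * (y * conj y) - k z) := by
      have h1 := hLW L z (cL z hz)
      have h2 : (fun w => dz (fun v => ((L v : ℝ) : ℂ)) w) = l := by
        funext w; rw [WI_dz]
      rw [h2, WI_dzb] at h1
      have h3 := hS.e1 z hz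
      have h4 : l' = ((lap L z : ℝ) : ℂ) := h1.symm
      rw [h4, h3, WI_dzb]
      simp only [add_zero, RR]
      push_cast
      have n1 : ∀ t : ℂ, t * conj t = ((‖t‖ : ℝ) : ℂ) ^ 2 := by
        intro t; rw [Complex.mul_conj, Complex.normSq_eq_norm_sq]; push_cast; ring
      have n2 : cexp (2 * (L z : ℂ)) = h z ^ 2 := by
        simp only [hh]; rw [Complex.ofReal_exp, ← Complex.exp_nat_mul]; norm_num
      have n3 : cexp (L z : ℂ) = h z := by simp only [hh]; rw [Complex.ofReal_exp]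
      have n4 : cexp (-(L z : ℂ)) = k z := by simp only [hk]; rw [Complex.ofReal_exp, Complex.ofReal_neg]
      rw [n2, n3, n4, ← n1, ← n1, ← n1]
      ring
    have q1 : WIdd (-1) (fun w => h w * β w) z = (W z : ℂ) * QQ (p z) (r z) (L z) (b z) := by
      have h1 := hS.e2 z hz
      have h2 : (fun w => (Real.exp (L w) : ℂ) * dzb b w) = fun w => h w * β w := by
        funext w; rw [WI_dzb]
      rw [h2, WI_dz] at h1
      exact h1
    have hQ : QQ (p z) (r z) (L z) (b z) = 3 * b z - 3 * h z * conj (b z) * x + h z ^ 2 * y * conj x := by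
      have n2 : ((Real.exp (2 * L z) : ℝ) : ℂ) = h z ^ 2 := by
        simp only [hh]; rw [two_mul, Real.exp_add]; push_cast; ring
      unfold QQ
      rw [n2]
    have s2 : m' + β z * l z = (W z : ℂ) * (k z * (3 * b z - 3 * h z * conj (b z) * x + h z ^ 2 * y * conj x)) := by
      have h1 : m' = WIdd (-1) β z := EHL_comm (cb z hz) 1 (-1)
      have h2 := q1
      rw [WIdd_mul (dh z hz) (dβ z hz), show WIdd (-1) h z = h z * l z from EHL_exp1 (dL z hz) (-1), ← h1, hQ] at h2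
      have h3 : k z * (h z * l z * β z + h z * m') = m' + β z * l z := by
        linear_combination (l z * β z + m') * hhk z
      rw [← h3, h2]; ring
    have s3 : c' = (W z : ℂ) * (3 * conj (b z) - 3 * h z * b z * conj x + h z ^ 2 * conj y * x) := by
      have h1 := WIdd_conj 1 ((dh z hz).mul (dβ z hz))
      push_cast at h1
      have h2 : (fun w => star (h w * β w)) = fun w => h w * conj (β w) := by
        funext w
        show conj (h w * β w) = _
        rw [map_mul, hcj]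
      have h1' : WIdd 1 (fun w => star (h w * β w)) z = star (WIdd (-1) (fun w => h w * β w) z) := h1
      rw [h2, q1, hQ] at h1'
      rw [hc', h1']
      show conj _ = _
      simp only [map_mul, map_add, map_sub, map_pow, Complex.conj_conj, Complex.conj_ofReal, hcj, map_ofNat]
    rw [lhs, hbr, EHL_br (b z) x y (h z) (k z) (hhk z), s1, s2, s3]
    have sm : ∀ a c e t : ℂ, EHL_M (t * a) (t * c) (t * e) = t • EHL_M a c e := by
      intro a c e t
      ext i j
      fin_cases i <;> fin_cases j <;> simp [EHL_M]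
    rw [sm]
    simp only [Matrix.mul_smul, Matrix.smul_mul]

end

end Pool.Agent.DL
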