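import Pool.Agent.helper22.DL.SpecE1

namespace Pool.Agent.DL

open Matrix Complex MeasureTheory Set Filter Topology
open scoped ComplexOrder Manifold ContDiff ComplexConjugate

noncomputable section

structure EIU_Den (f : ℂ → ℝ) (C : ℝ) : Prop where
  m : AEStronglyMeasurable f (volume.restrict Dk)
  b : ∀ z ∈ Dk, z ^ 8 ≠ 1 → |f z| ≤ C * Wt 1 z

lemma EIU_meas_Dk : MeasurableSet Dk := Metric.isClosed_closedBall.measurableSet

lemma EIU_Wt_nonneg (z : ℂ) : 0 ≤ Wt 1 z := by unfold Wt; positivity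

lemma EIU_ae (hKC : EKC_stmt) : ∀ᵐ z ∂(volume : Measure ℂ), z ^ 8 ≠ 1 := by
  have h := hKC.2.2.1
  rw [ae_iff]
  simpa using h

lemma EIU_int0 (hKC : EKC_stmt) (hKD : EKD_stmt) {f : ℂ → ℝ} {C : ℝ} (hf : EIU_Den f C) : IntegrableOn f Dk := by
  obtain ⟨K, -, -, -, h, -⟩ := hKD 2 (by norm_num)
  have h1 : IntegrableOn (fun ξ => C * Wt 1 ξ) Dk :=
    (h.1.mono_set (Metric.closedBall_subset_ball (by norm_num))).const_mul C
  refine Integrable.mono' h1 hf.m ?_
  refine (ae_restrict_iff' EIU_meas_Dk).2 ?_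
  filter_upwards [EIU_ae hKC] with ξ hξ hD
  rw [Real.norm_eq_abs]
  exact hf.b ξ hD hξ

lemma EIU_int1 (hKC : EKC_stmt) (hKD : EKD_stmt) {f : ℂ → ℝ} {C : ℝ} (hf : EIU_Den f C) (z : ℂ) :
    IntegrableOn (fun ξ => Real.log ‖z - ξ‖ * f ξ) Dk := by
  have hR : 0 < ‖z‖ + 2 := by positivity
  obtain ⟨K, -, -, -, -, h⟩ := hKD (‖z‖ + 2) hR
  have hz : z ∈ Metric.ball (0 : ℂ) (‖z‖ + 2) := by
    rw [Metric.mem_ball, dist_zero_right]; linarith
  have hsub : Dk ⊆ Metric.ball (0 : ℂ) (‖z‖ + 2) :=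
    Metric.closedBall_subset_ball (by linarith [norm_nonneg z])
  have h1 : IntegrableOn (fun ξ => C * (Wt 1 ξ * |Real.log ‖z - ξ‖|)) Dk :=
    ((h z hz).1.mono_set hsub).const_mul C
  have hm : AEStronglyMeasurable (fun ξ => Real.log ‖z - ξ‖ * f ξ) (volume.restrict Dk) := by
    refine AEStronglyMeasurable.mul ?_ hf.m
    exact (Real.measurable_log.comp (by fun_prop : Measurable fun ξ : ℂ => ‖z - ξ‖)).aestronglyMeasurable
  refine Integrable.mono' h1 hm ?_
  refine (ae_restrict_iff' EIU_meas_Dk).2 ?_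
  filter_upwards [EIU_ae hKC] with ξ hξ hD
  rw [norm_mul, Real.norm_eq_abs, Real.norm_eq_abs]
  have := mul_le_mul_of_nonneg_left (hf.b ξ hD hξ) (abs_nonneg (Real.log ‖z - ξ‖))
  linarith

lemma EIU_log (z : ℂ) (hz : z ≠ 0) (ξ : ℂ) (hξ : ξ ≠ z⁻¹) :
    Real.log ‖1 - z * ξ‖ = Real.log ‖z‖ + Real.log ‖z⁻¹ - ξ‖ := by
  have h1 : 1 - z * ξ = z * (z⁻¹ - ξ) := by field_simp
  rw [h1, norm_mul, Real.log_mul (norm_ne_zero_iff.2 hz) (norm_ne_zero_iff.2 (sub_ne_zero.2 (Ne.symm hξ)))]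

lemma EIU_ne (a : ℂ) : ∀ᵐ z ∂(volume : Measure ℂ), z ≠ a := by
  have h := (Set.countable_singleton a).ae_notMem (volume : Measure ℂ)
  simpa using h

lemma EIU_int2 (hKC : EKC_stmt) (hKD : EKD_stmt) {f : ℂ → ℝ} {C : ℝ} (hf : EIU_Den f C) (z : ℂ) :
    IntegrableOn (fun ξ => Real.log ‖1 - z * ξ‖ * f ξ) Dk := by
  by_cases hz : z = 0
  · subst hz
    refine (integrable_zero ℂ ℝ (volume.restrict Dk)).congr (Eventually.of_forall fun ξ => ?_)
    simp
  · have h1 : IntegrableOn (fun ξ => Real.log ‖z‖ * f ξ + Real.log ‖z⁻¹ - ξ‖ * f ξ) Dk :=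
      ((EIU_int0 hKC hKD hf).const_mul _).add (EIU_int1 hKC hKD hf z⁻¹)
    refine h1.congr (ae_restrict_of_ae ?_)
    filter_upwards [EIU_ne z⁻¹] with ξ hξ
    rw [EIU_log z hz ξ hξ]; ring

lemma EIU_glue (hKC : EKC_stmt) (hKD : EKD_stmt) {f : ℂ → ℝ} {C : ℝ} (hf : EIU_Den f C) (z : ℂ) (hz : z ≠ 0) :
    ∫ ξ in Dk, Real.log ‖1 - z * ξ‖ * f ξ = Real.log ‖z‖ * (∫ ξ in Dk, f ξ) + ∫ ξ in Dk, Real.log ‖z⁻¹ - ξ‖ * f ξ := by
  rw [← integral_const_mul, ← integral_add ((EIU_int0 hKC hKD hf).const_mul _) (EIU_int1 hKC hKD hf z⁻¹)]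
  refine integral_congr_ae (ae_restrict_of_ae ?_)
  filter_upwards [EIU_ne z⁻¹] with ξ hξ
  rw [EIU_log z hz ξ hξ]; ring

lemma EIU_cont (hKC : EKC_stmt) {k : ℂ → ℂ → ℝ} (hG : GK (fun z ξ : ℂ => Wt 1 ξ * k z ξ)) {f : ℂ → ℝ} {C : ℝ}
    (hf : EIU_Den f C) (hi : ∀ z, IntegrableOn (fun ξ => k z ξ * f ξ) Dk) :
    ContinuousOn (fun z => ∫ ξ in Dk, k z ξ * f ξ) Dk := by
  intro z₀ hz₀
  rw [ContinuousWithinAt, tendsto_iff_norm_sub_tendsto_zero]
  have h1 := (hG.2 z₀ hz₀).const_mul |C|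
  rw [mul_zero] at h1
  refine squeeze_zero' (Eventually.of_forall fun _ => norm_nonneg _) ?_ h1
  filter_upwards [self_mem_nhdsWithin] with z hz
  rw [← integral_sub (hi z) (hi z₀)]
  have h2 : Integrable (fun ξ => |C| * ‖Wt 1 ξ * k z ξ - Wt 1 ξ * k z₀ ξ‖) (volume.restrict Dk) :=
    ((hG.1 z hz).sub (hG.1 z₀ hz₀)).norm.const_mul |C|
  refine (norm_integral_le_of_norm_le h2 ?_).trans (le_of_eq (integral_const_mul _ _))
  refine (ae_restrict_iff' EIU_meas_Dk).2 ?_
  filter_upwards [EIU_ae hKC] with ξ hξ hD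
  have h3 : k z ξ * f ξ - k z₀ ξ * f ξ = (k z ξ - k z₀ ξ) * f ξ := by ring
  have h4 : Wt 1 ξ * k z ξ - Wt 1 ξ * k z₀ ξ = Wt 1 ξ * (k z ξ - k z₀ ξ) := by ring
  rw [h3, h4, norm_mul, norm_mul, Real.norm_eq_abs (f ξ), Real.norm_of_nonneg (EIU_Wt_nonneg ξ)]
  have h5 : |f ξ| ≤ |C| * Wt 1 ξ := (hf.b ξ hD hξ).trans
    (mul_le_mul_of_nonneg_right (le_abs_self C) (EIU_Wt_nonneg ξ))
  have h6 := mul_le_mul_of_nonneg_left h5 (norm_nonneg (k z ξ - k z₀ ξ))
  linarith

lemma EIU_holo {g : ℂ → ℝ} (R : ℝ) (hR : 1 < R) (hg : IntegrableOn g (Metric.closedBall (0 : ℂ) (1 / R))) :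
    DifferentiableOn ℂ (fun z => ∫ η in Metric.closedBall (0 : ℂ) (1 / R), Complex.log (1 - z * η) * (g η : ℂ))
      (Metric.ball 0 R) ∧
    ∀ z ∈ Metric.ball (0 : ℂ) R, (∫ η in Metric.closedBall (0 : ℂ) (1 / R), Complex.log (1 - z * η) * (g η : ℂ)).re =
      ∫ η in Metric.closedBall (0 : ℂ) (1 / R), Real.log ‖1 - z * η‖ * g η := by
  have hR0 : 0 < R := by linarith
  have hgc : IntegrableOn (fun η => ((g η : ℝ) : ℂ)) (Metric.closedBall (0 : ℂ) (1 / R)) := hg.ofReal
  have hmc : MeasurableSet (Metric.closedBall (0 : ℂ) (1 / R)) := Metric.isClosed_closedBall.measurableSet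
  have hnorm : ∀ r : ℝ, r < R → ∀ z ∈ Metric.ball (0 : ℂ) r, ∀ η ∈ Metric.closedBall (0 : ℂ) (1 / R), ‖z * η‖ ≤ r / R := by
    intro r hr z hz η hη
    rw [Metric.mem_ball, dist_zero_right] at hz
    rw [Metric.mem_closedBall, dist_zero_right] at hη
    rw [norm_mul, div_eq_mul_one_div]
    exact mul_le_mul hz.le hη (norm_nonneg _) ((norm_nonneg z).trans hz.le)
  have hslit : ∀ z ∈ Metric.ball (0 : ℂ) R, ∀ η ∈ Metric.closedBall (0 : ℂ) (1 / R), 1 - z * η ∈ slitPlane := by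
    intro z hz η hη
    have h1 : ‖z * η‖ < 1 := by
      rw [Metric.mem_ball, dist_zero_right] at hz
      rw [Metric.mem_closedBall, dist_zero_right] at hη
      rw [norm_mul]
      rcases (norm_nonneg z).eq_or_lt with h0 | h0
      · rw [← h0, zero_mul]; exact one_pos
      · calc ‖z‖ * ‖η‖ ≤ ‖z‖ * (1 / R) := mul_le_mul_of_nonneg_left hη h0.le
          _ < R * (1 / R) := mul_lt_mul_of_pos_right hz (by positivity)
          _ = 1 := by field_simp
    left
    have h2 : |(z * η).re| ≤ ‖z * η‖ := Complex.abs_re_le_norm _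
    rw [Complex.sub_re, Complex.one_re]
    have := le_abs_self (z * η).re
    linarith
  have hcon : ∀ z ∈ Metric.ball (0 : ℂ) R, ContinuousOn (fun η : ℂ => Complex.log (1 - z * η))
      (Metric.closedBall (0 : ℂ) (1 / R)) := by
    intro z hz
    refine ContinuousOn.clog (by fun_prop) ?_
    exact fun η hη => hslit z hz η hη
  have hint : ∀ z ∈ Metric.ball (0 : ℂ) R, IntegrableOn (fun η : ℂ => Complex.log (1 - z * η) * (g η : ℂ))
      (Metric.closedBall (0 : ℂ) (1 / R)) := fun z hz =>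
    IntegrableOn.continuousOn_mul (hcon z hz) hgc (isCompact_closedBall _ _)
  constructor
  · intro z₀ hz₀
    have hz₀' : ‖z₀‖ < R := by rwa [Metric.mem_ball, dist_zero_right] at hz₀
    obtain ⟨r, hr1, hr2⟩ := exists_between hz₀'
    have hr0 : 0 < r := (norm_nonneg z₀).trans_lt hr1
    have hs : Metric.ball (0 : ℂ) r ∈ 𝓝 z₀ :=
      Metric.isOpen_ball.mem_nhds (by rw [Metric.mem_ball, dist_zero_right]; exact hr1)
    have hsub : Metric.ball (0 : ℂ) r ⊆ Metric.ball 0 R := Metric.ball_subset_ball hr2.le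
    have hrR : 0 < 1 - r / R := by
      have : r / R < 1 := (div_lt_one hR0).2 hr2
      linarith
    have hlow : ∀ z ∈ Metric.ball (0 : ℂ) r, ∀ η ∈ Metric.closedBall (0 : ℂ) (1 / R), 1 - r / R ≤ ‖1 - z * η‖ := by
      intro z hz η hη
      have h1 := hnorm r hr2 z hz η hη
      have h2 : ‖(1 : ℂ)‖ - ‖z * η‖ ≤ ‖1 - z * η‖ := norm_sub_norm_le _ _
      rw [norm_one] at h2
      linarith
    have key := hasDerivAt_integral_of_dominated_loc_of_deriv_le
      (μ := volume.restrict (Metric.closedBall (0 : ℂ) (1 / R)))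
      (F := fun z η => Complex.log (1 - z * η) * ((g η : ℝ) : ℂ))
      (F' := fun z η => (-η / (1 - z * η)) * ((g η : ℝ) : ℂ)) (x₀ := z₀) (s := Metric.ball (0 : ℂ) r)
      (bound := fun η => ((1 / R) / (1 - r / R)) * |g η|) hs ?_ (hint z₀ hz₀) ?_ ?_ ?_ ?_
    · exact key.2.differentiableAt.differentiableWithinAt
    · filter_upwards [hs] with z hz
      exact (hint z (hsub hz)).1
    · have hc2 : ContinuousOn (fun η : ℂ => -η / (1 - z₀ * η)) (Metric.closedBall (0 : ℂ) (1 / R)) := by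
        refine ContinuousOn.div (by fun_prop) (by fun_prop) ?_
        intro η hη
        exact slitPlane_ne_zero (hslit z₀ hz₀ η hη)
      exact (IntegrableOn.continuousOn_mul hc2 hgc (isCompact_closedBall _ _)).1
    · refine (ae_restrict_iff' hmc).2 (Eventually.of_forall fun η hη z hz => ?_)
      show ‖(-η / (1 - z * η)) * ((g η : ℝ) : ℂ)‖ ≤ ((1 / R) / (1 - r / R)) * |g η|
      rw [norm_mul, Complex.norm_real, Real.norm_eq_abs]
      refine mul_le_mul_of_nonneg_right ?_ (abs_nonneg _)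
      rw [norm_div, norm_neg]
      have h3 : ‖η‖ ≤ 1 / R := by rwa [Metric.mem_closedBall, dist_zero_right] at hη
      exact div_le_div₀ (by positivity) h3 hrR (hlow z hz η hη)
    · exact hg.abs.const_mul _
    · refine (ae_restrict_iff' hmc).2 (Eventually.of_forall fun η hη z hz => ?_)
      have h4 : HasDerivAt (fun z : ℂ => 1 - z * η) (-η) z := by
        have := ((hasDerivAt_id z).mul_const η).const_sub 1
        simpa using this
      exact (h4.clog (hslit z (hsub hz) η hη)).mul_const _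
  · intro z hz
    have h1 := integral_re (𝕜 := ℂ) (hint z hz)
    have h2 : (∫ η in Metric.closedBall (0 : ℂ) (1 / R), Complex.log (1 - z * η) * (g η : ℂ)).re =
        ∫ η in Metric.closedBall (0 : ℂ) (1 / R), (Complex.log (1 - z * η) * (g η : ℂ)).re := h1.symm
    rw [h2]
    refine integral_congr_ae (Eventually.of_forall fun η => ?_)
    show (Complex.log (1 - z * η) * (g η : ℂ)).re = Real.log ‖1 - z * η‖ * g η
    rw [Complex.re_mul_ofReal, Complex.log_re]

theorem EIU (hKC : EKC_stmt) (hKD : EKD_stmt) (hKG : EKG_stmt) (hIX : EIX_stmt) : EIU_stmt := by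
  intro F C hFm hFb hmass
  have hf : ∀ j, EIU_Den (F j) C := fun j => ⟨hFm j, hFb j⟩
  have i0 := fun j => EIU_int0 hKC hKD (hf j)
  have i1 := fun j z => EIU_int1 hKC hKD (hf j) z
  have i2 := fun j z => EIU_int2 hKC hKD (hf j) z
  have hm : ∀ j, (∫ ξ in Dk, F j ξ) + ∫ ξ in Dk, F (!j) ξ = 0 := by
    intro j
    cases j
    · exact hmass
    · rw [add_comm]; exact hmass
  have hgl : ∀ j z, z ≠ 0 → TU F j z = TU F (!j) z⁻¹ := by
    intro j z hz
    have h1 := EIU_glue hKC hKD (hf (!j)) z hz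
    have h2 := EIU_glue hKC hKD (hf j) z⁻¹ (inv_ne_zero hz)
    rw [inv_inv, norm_inv, Real.log_inv] at h2
    unfold TU
    rw [Bool.not_not, h1, h2]
    have h3 := hm j
    have h4 : (∫ ξ in Dk, F (!j) ξ) = -∫ ξ in Dk, F j ξ := by linarith
    rw [h4]; ring
  have hc1 : ∀ j, ContinuousOn (TU F j) Dk := by
    intro j
    have h1 := EIU_cont (k := fun z ξ => Real.log ‖z - ξ‖) hKC hKG.1 (hf j) (i1 j)
    have h2 := EIU_cont (k := fun z ξ => Real.log ‖1 - z * ξ‖) hKC hKG.2 (hf (!j)) (i2 (!j))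
    exact (h1.add h2).const_smul (2 / Real.pi) |>.congr fun z _ => rfl
  refine ⟨?_, hgl, ?_⟩
  · intro j
    rw [← continuousOn_univ]
    have hc2 : ContinuousOn (TU F j) {z : ℂ | 1 ≤ ‖z‖} := by
      have h1 : ContinuousOn (fun z : ℂ => TU F (!j) z⁻¹) {z : ℂ | 1 ≤ ‖z‖} := by
        refine (hc1 (!j)).comp ?_ ?_
        · intro z hz
          have hz0 : z ≠ 0 := by
            intro h; rw [h] at hz; simp at hz; linarith
          exact (continuousAt_inv₀ hz0).continuousWithinAt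
        · intro z hz
          rw [Metric.mem_closedBall, dist_zero_right, norm_inv]
          exact inv_le_one_of_one_le₀ hz
      refine h1.congr fun z hz => ?_
      have hz0 : z ≠ 0 := by
        intro h; rw [h] at hz; simp at hz; linarith
      exact hgl j z hz0
    have hcl : IsClosed {z : ℂ | 1 ≤ ‖z‖} := isClosed_le continuous_const continuous_norm
    have h3 := (hc1 j).union_of_isClosed hc2 Metric.isClosed_closedBall hcl
    refine h3.mono fun z _ => ?_
    by_cases h : ‖z‖ ≤ 1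
    · left; rwa [Metric.mem_closedBall, dist_zero_right]
    · right; exact (not_le.1 h).le
  · intro j R hR
    have hR0 : 0 < R := by linarith
    set g : ℂ → ℝ := F (!j) with hg
    set A : Set ℂ := {ξ : ℂ | 1 < ‖ξ‖ ∧ ‖ξ‖ < R} with hA
    set A' : Set ℂ := {η : ℂ | 1 / R < ‖η‖ ∧ ‖η‖ < 1} with hA'
    have mA : MeasurableSet A := by
      refine (measurableSet_lt measurable_const measurable_norm).inter (measurableSet_lt measurable_norm measurable_const)
    have mA' : MeasurableSet A' := by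
      refine (measurableSet_lt measurable_const measurable_norm).inter (measurableSet_lt measurable_norm measurable_const)
    have hR1 : 1 / R < 1 := (div_lt_one hR0).2 hR
    have sA' : A' ⊆ Dk := fun η hη => by
      rw [Metric.mem_closedBall, dist_zero_right]; exact hη.2.le
    have sB : Metric.closedBall (0 : ℂ) (1 / R) ⊆ Dk := Metric.closedBall_subset_closedBall hR1.le
    have hball : Metric.ball (0 : ℂ) R = Dk ∪ A := by
      ext z
      rw [Metric.mem_ball, dist_zero_right, mem_union, Metric.mem_closedBall, dist_zero_right, hA, mem_ofPred_eq]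
      constructor
      · intro h
        by_cases h1 : ‖z‖ ≤ 1
        · exact Or.inl h1
        · exact Or.inr ⟨not_le.1 h1, h⟩
      · rintro (h | h)
        · linarith
        · exact h.2
    have hdisj : Disjoint Dk A := by
      rw [Set.disjoint_left]
      intro z hz hz'
      rw [Metric.mem_closedBall, dist_zero_right] at hz
      exact absurd hz'.1 (not_lt.2 hz)
    have hDk : (Dk : Set ℂ) =ᵐ[volume] (Metric.closedBall (0 : ℂ) (1 / R) ∪ A' : Set ℂ) := by
      rw [ae_eq_set]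
      constructor
      · refine measure_mono_null ?_ (Measure.addHaar_sphere volume (0 : ℂ) 1)
        rintro z ⟨h1, h2⟩
        rw [Metric.mem_closedBall, dist_zero_right] at h1
        rw [mem_sphere_zero_iff_norm]
        by_contra h3
        apply h2
        have h4 : ‖z‖ < 1 := lt_of_le_of_ne h1 h3
        by_cases h5 : ‖z‖ ≤ 1 / R
        · left; rwa [Metric.mem_closedBall, dist_zero_right]
        · right; exact ⟨not_le.1 h5, h4⟩
      · have : (Metric.closedBall (0 : ℂ) (1 / R) ∪ A') \ Dk = ∅ := by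
          rw [sdiff_eq_empty]; exact union_subset sB sA'
        rw [this, measure_empty]
    have hdisj' : Disjoint (Metric.closedBall (0 : ℂ) (1 / R)) A' := by
      rw [Set.disjoint_left]
      intro z hz hz'
      rw [Metric.mem_closedBall, dist_zero_right] at hz
      exact absurd hz'.1 (not_lt.2 hz)
    -- values of `exF`
    have ex1 : ∀ ξ ∈ Dk, exF F j ξ = F j ξ := by
      intro ξ hξ
      rw [Metric.mem_closedBall, dist_zero_right] at hξ
      unfold exF; rw [if_pos hξ]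
    have ex2 : ∀ ξ ∈ A, exF F j ξ = ‖ξ‖⁻¹ ^ 4 * g ξ⁻¹ := by
      intro ξ hξ
      unfold exF; rw [if_neg (not_le.2 hξ.1)]
    have hgA' : IntegrableOn g A' := (i0 (!j)).mono_set sA'
    have hexA : IntegrableOn (exF F j) A := by
      have h1 := ((hIX ℝ g R hR).1).1 hgA'
      exact h1.congr_fun (fun ξ hξ => by simp only [ex2 ξ hξ, smul_eq_mul]) mA
    have hexD : IntegrableOn (exF F j) Dk := (i0 j).congr_fun (fun ξ hξ => (ex1 ξ hξ).symm) EIU_meas_Dk
    refine ⟨by rw [hball]; exact hexD.union hexA, ?_⟩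
    set c₀ : ℝ := ∫ η in A', Real.log ‖η‖ * g η with hc₀
    obtain ⟨hol, hre⟩ := EIU_holo (g := g) R hR ((i0 (!j)).mono_set sB)
    refine ⟨fun z => ((2 / Real.pi : ℝ) : ℂ) * ((∫ η in Metric.closedBall (0 : ℂ) (1 / R), Complex.log (1 - z * η) * (g η : ℂ)) + (c₀ : ℂ)),
      (hol.add_const _).const_mul _, ?_⟩
    intro z hz
    rw [Complex.re_ofReal_mul, Complex.add_re, Complex.ofReal_re, hre z hz]
    -- the second integral
    have s1 : ∫ ξ in Dk, Real.log ‖1 - z * ξ‖ * g ξ =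
        (∫ ξ in Metric.closedBall (0 : ℂ) (1 / R), Real.log ‖1 - z * ξ‖ * g ξ) + ∫ ξ in A', Real.log ‖1 - z * ξ‖ * g ξ := by
      rw [setIntegral_congr_set hDk, setIntegral_union hdisj' mA' ((i2 (!j) z).mono_set sB) ((i2 (!j) z).mono_set sA')]
    -- integral over the annulus
    have il : IntegrableOn (fun η => Real.log ‖η‖ * g η) A' := by
      have h1 := (i1 (!j) 0).mono_set sA'
      refine h1.congr_fun (fun η _ => ?_) mA'
      simp only [zero_sub, norm_neg]; rfl
    have hlg : ∀ᵐ η ∂(volume.restrict A'), Real.log ‖1 - z * η‖ * g η - Real.log ‖η‖ * g η = Real.log ‖z - η⁻¹‖ * g η := by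
      refine (ae_restrict_iff' mA').2 ?_
      by_cases hz0 : z = 0
      · refine Eventually.of_forall fun η hη => ?_
        rw [hz0, zero_mul, sub_zero, norm_one, Real.log_one, zero_sub, norm_neg, norm_inv, Real.log_inv]
        ring
      · filter_upwards [EIU_ne z⁻¹] with η hη hηA
        have hη0 : η ≠ 0 := by
          intro h
          have := hηA.1
          rw [h, norm_zero] at this
          have h2 : 0 < 1 / R := by positivity
          linarith
        have h1 : z - η⁻¹ ≠ 0 := by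
          intro h
          apply hη
          have h2 : z = η⁻¹ := sub_eq_zero.1 h
          rw [h2, inv_inv]
        have h2 : 1 - z * η = -(z - η⁻¹) * η := by field_simp; ring
        rw [h2, norm_mul, norm_neg, Real.log_mul (norm_ne_zero_iff.2 h1) (norm_ne_zero_iff.2 hη0)]
        ring
    have s2 : ∫ ξ in A, Real.log ‖z - ξ‖ * exF F j ξ = (∫ ξ in A', Real.log ‖1 - z * ξ‖ * g ξ) - c₀ := by
      have h1 := (hIX ℝ (fun η => Real.log ‖z - η⁻¹‖ * g η) R hR).2
      have h2 : ∫ ξ in A, Real.log ‖z - ξ‖ * exF F j ξ =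
          ∫ ξ in A, (‖ξ‖⁻¹ ^ 4 : ℝ) • (fun η => Real.log ‖z - η⁻¹‖ * g η) ξ⁻¹ := by
        refine setIntegral_congr_fun mA fun ξ hξ => ?_
        simp only [ex2 ξ hξ, smul_eq_mul, inv_inv]; ring
      rw [h2, ← h1, hc₀, ← integral_sub ((i2 (!j) z).mono_set sA') il]
      exact integral_congr_ae (hlg.mono fun η h => h.symm)
    have iA : IntegrableOn (fun ξ => Real.log ‖z - ξ‖ * exF F j ξ) A := by
      have h1 := (hIX ℝ (fun η => Real.log ‖z - η⁻¹‖ * g η) R hR).1
      have h2 : IntegrableOn (fun η => Real.log ‖z - η⁻¹‖ * g η) A' :=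
        (((i2 (!j) z).mono_set sA').sub il).congr hlg
      refine (h1.1 h2).congr_fun (fun ξ hξ => ?_) mA
      simp only [ex2 ξ hξ, smul_eq_mul, inv_inv]; ring
    have iD : IntegrableOn (fun ξ => Real.log ‖z - ξ‖ * exF F j ξ) Dk :=
      (i1 j z).congr_fun (fun ξ hξ => by simp only [ex1 ξ hξ]) EIU_meas_Dk
    have s3 : ∫ ξ in Dk, Real.log ‖z - ξ‖ * exF F j ξ = ∫ ξ in Dk, Real.log ‖z - ξ‖ * F j ξ :=
      setIntegral_congr_fun EIU_meas_Dk fun ξ hξ => by simp only [ex1 ξ hξ]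
    unfold TU TL
    rw [hball, setIntegral_union hdisj mA iD iA, s2, s3]
    have s1' : ∫ ξ in Dk, Real.log ‖1 - z * ξ‖ * F (!j) ξ =
        (∫ ξ in Metric.closedBall (0 : ℂ) (1 / R), Real.log ‖1 - z * ξ‖ * g ξ) + ∫ ξ in A', Real.log ‖1 - z * ξ‖ * g ξ := s1
    rw [s1']
    ring

end

end Pool.Agent.DL
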