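import Pool.Agent.helper22.DL.SpecE2

namespace Pool.Agent.DL

open Matrix Complex MeasureTheory Set Filter Topology
open scoped ComplexOrder Manifold ContDiff ComplexConjugate

noncomputable section

/-! ### Wirtinger calculus -/

lemma EPC_chain {f ψ : ℂ → ℂ} {z : ℂ} (hf : DifferentiableAt ℝ f (ψ z)) (hψ : DifferentiableAt ℂ ψ z) :
    dzb (fun w => f (ψ w)) z = conj (deriv ψ z) * dzb f (ψ z) := by
  have h1 : HasFDerivAt (fun w => f (ψ w)) ((fderiv ℝ f (ψ z)).comp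
      ((fderiv ℂ ψ z).restrictScalars ℝ)) z :=
    hf.hasFDerivAt.comp z (hψ.hasFDerivAt.restrictScalars ℝ)
  have h2 : ∀ v : ℂ, fderiv ℂ ψ z v = deriv ψ z * v := by
    intro v
    have := (fderiv ℂ ψ z).map_smul v 1
    rw [smul_eq_mul, mul_one] at this
    rw [this, smul_eq_mul, fderiv_apply_one_eq_deriv, mul_comm]
  have h3 : ∀ v : ℂ, fderiv ℝ (fun w => f (ψ w)) z v =
      (deriv ψ z * v).re * fderiv ℝ f (ψ z) 1 + (deriv ψ z * v).im * fderiv ℝ f (ψ z) I := by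
    intro v
    rw [h1.fderiv]
    simp only [ContinuousLinearMap.comp_apply, ContinuousLinearMap.coe_restrictScalars', h2]
    have h4 : (deriv ψ z * v : ℂ) = (deriv ψ z * v).re • (1 : ℂ) + (deriv ψ z * v).im • I := by
      rw [real_smul, real_smul, mul_one, re_add_im]
    conv_lhs => rw [h4]
    rw [map_add, map_smul, map_smul, real_smul, real_smul]
  have hs : conj (deriv ψ z) = ((deriv ψ z).re : ℂ) - (deriv ψ z).im * I := by
    apply Complex.ext <;> simp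
  simp only [dzb, h3, hs]
  simp only [mul_one, mul_re, mul_im, I_re, I_im, mul_zero, zero_sub, add_zero, ofReal_neg]
  linear_combination ((deriv ψ z).im * fderiv ℝ f (ψ z) I / 2) * (I_mul_I)

lemma EPC_mul {h f : ℂ → ℂ} {z : ℂ} (hh : DifferentiableAt ℂ h z) (hf : DifferentiableAt ℝ f z) :
    dzb (fun w => h w * f w) z = h z * dzb f z := by
  have h0 : HasFDerivAt h ((fderiv ℂ h z).restrictScalars ℝ) z := hh.hasFDerivAt.restrictScalars ℝ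
  have h1 : fderiv ℝ (fun w => h w * f w) z = h z • fderiv ℝ f z + f z • (fderiv ℂ h z).restrictScalars ℝ :=
    (h0.mul hf.hasFDerivAt).fderiv
  have h2 : fderiv ℂ h z I = I * fderiv ℂ h z 1 := by
    have := (fderiv ℂ h z).map_smul I 1
    rwa [smul_eq_mul, mul_one, smul_eq_mul] at this
  simp only [dzb, h1, _root_.add_apply, _root_.smul_apply, smul_eq_mul,
    ContinuousLinearMap.coe_restrictScalars', h2]
  linear_combination (f z * fderiv ℂ h z 1 / 2) * I_mul_I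

lemma EPC_conj {w : ℂ → ℝ} {z : ℂ} (hw : DifferentiableAt ℝ w z) :
    dzb (fun x => (w x : ℂ)) z = conj (dz (fun x => (w x : ℂ)) z) := by
  have hd : ∀ v, fderiv ℝ (fun x => (w x : ℂ)) z v = ((fderiv ℝ w z v : ℝ) : ℂ) := by
    intro v
    have h1 : HasFDerivAt (fun x => (w x : ℂ)) (Complex.ofRealCLM.comp (fderiv ℝ w z)) z :=
      Complex.ofRealCLM.hasFDerivAt.comp z hw.hasFDerivAt
    rw [h1.fderiv]
    rfl
  unfold dz dzb
  rw [hd, hd, map_div₀, map_sub, map_mul, conj_ofReal, conj_ofReal, conj_I, map_ofNat]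
  ring

/-! ### Smoothness of the nonlinear terms -/

section sm
variable {E : Type*} [NormedAddCommGroup E] [NormedSpace ℝ E] {f g : E → ℂ} {a : E → ℝ} {s : Set E}
variable {n : WithTop ℕ∞}

lemma EPC_c (hf : ContDiffOn ℝ n f s) : ContDiffOn ℝ n (fun x => conj (f x)) s :=
  (Complex.conjCLE : ℂ →L[ℝ] ℂ).contDiff.comp_contDiffOn hf
lemma EPC_re (hf : ContDiffOn ℝ n f s) : ContDiffOn ℝ n (fun x => (f x).re) s :=
  Complex.reCLM.contDiff.comp_contDiffOn hf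
lemma EPC_of (hf : ContDiffOn ℝ n a s) : ContDiffOn ℝ n (fun x => ((a x : ℝ) : ℂ)) s :=
  Complex.ofRealCLM.contDiff.comp_contDiffOn hf
lemma EPC_ns (hf : ContDiffOn ℝ n f s) : ContDiffOn ℝ n (fun x => ‖f x‖ ^ 2) s := hf.norm_sq ℝ

variable {p r b b' : E → ℂ} {L L' : E → ℝ}

lemma EPC_xx (hp : ContDiffOn ℝ n p s) (hb : ContDiffOn ℝ n b s) : ContDiffOn ℝ n (fun x => xx (p x) (b x)) s := by
  unfold xx
  exact hp.sub (contDiffOn_const.mul (hb.pow 2))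

lemma EPC_yy (hp : ContDiffOn ℝ n p s) (hr : ContDiffOn ℝ n r s) (hb : ContDiffOn ℝ n b s) :
    ContDiffOn ℝ n (fun x => yy (p x) (r x) (b x)) s := by
  unfold yy
  exact (hr.add ((contDiffOn_const.mul hb).mul hp)).sub (hb.pow 3)

lemma EPC_RR (hp : ContDiffOn ℝ n p s) (hr : ContDiffOn ℝ n r s) (hL : ContDiffOn ℝ n L s) (hb : ContDiffOn ℝ n b s) :
    ContDiffOn ℝ n (fun x => RR (p x) (r x) (L x) (b x)) s := by
  unfold RR
  exact ((hL.exp.mul (EPC_ns (EPC_xx hp hb))).add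
    ((contDiffOn_const.mul hL).exp.mul (EPC_ns (EPC_yy hp hr hb)))).sub hL.neg.exp

lemma EPC_QQ (hp : ContDiffOn ℝ n p s) (hr : ContDiffOn ℝ n r s) (hL : ContDiffOn ℝ n L s) (hb : ContDiffOn ℝ n b s) :
    ContDiffOn ℝ n (fun x => QQ (p x) (r x) (L x) (b x)) s := by
  unfold QQ
  exact ((contDiffOn_const.mul hb).sub (((contDiffOn_const.mul (EPC_of hL.exp)).mul (EPC_c hb)).mul (EPC_xx hp hb))).add
    (((EPC_of (contDiffOn_const.mul hL).exp).mul (EPC_yy hp hr hb)).mul (EPC_c (EPC_xx hp hb)))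

lemma EPC_RR' (hp : ContDiffOn ℝ n p s) (hr : ContDiffOn ℝ n r s) (hL : ContDiffOn ℝ n L s) (hb : ContDiffOn ℝ n b s)
    (hL' : ContDiffOn ℝ n L' s) (hb' : ContDiffOn ℝ n b' s) :
    ContDiffOn ℝ n (fun x => RR' (p x) (r x) (L x) (b x) (L' x) (b' x)) s := by
  unfold RR'
  refine ((hL.exp.mul ((hL'.mul (EPC_ns (EPC_xx hp hb))).add (contDiffOn_const.mul (EPC_re
    ((EPC_c (EPC_xx hp hb)).mul ((contDiffOn_const.mul hb).mul hb')))))).add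
    ((contDiffOn_const.mul hL).exp.mul (((contDiffOn_const.mul hL').mul (EPC_ns (EPC_yy hp hr hb))).add
      (contDiffOn_const.mul (EPC_re ((EPC_c (EPC_yy hp hr hb)).mul
        (((contDiffOn_const.mul hp).mul hb').sub ((contDiffOn_const.mul (hb.pow 2)).mul hb')))))))).add
    (hL.neg.exp.mul hL')

lemma EPC_QQ' (hp : ContDiffOn ℝ n p s) (hr : ContDiffOn ℝ n r s) (hL : ContDiffOn ℝ n L s) (hb : ContDiffOn ℝ n b s)
    (hL' : ContDiffOn ℝ n L' s) (hb' : ContDiffOn ℝ n b' s) :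
    ContDiffOn ℝ n (fun x => QQ' (p x) (r x) (L x) (b x) (L' x) (b' x)) s := by
  unfold QQ'
  have hx := EPC_xx hp hb
  have hy := EPC_yy hp hr hb
  have h3b : ContDiffOn ℝ n (fun x => -3 * b x * b' x) s := (contDiffOn_const.mul hb).mul hb'
  have hy' : ContDiffOn ℝ n (fun x => 2 * p x * b' x - 3 * b x ^ 2 * b' x) s :=
    ((contDiffOn_const.mul hp).mul hb').sub ((contDiffOn_const.mul (hb.pow 2)).mul hb')
  exact ((contDiffOn_const.mul hb').sub ((contDiffOn_const.mul (EPC_of hL.exp)).mul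
    (((((EPC_of hL').mul (EPC_c hb)).mul hx).add ((EPC_c hb').mul hx)).add ((EPC_c hb).mul h3b)))).add
    ((EPC_of (contDiffOn_const.mul hL).exp).mul
      (((((contDiffOn_const.mul (EPC_of hL')).mul hy).mul (EPC_c hx)).add (hy'.mul (EPC_c hx))).add
        (hy.mul (EPC_c h3b))))

end sm

/-! ### The system in the coordinate `y` -/

def EPC_V (u : Bool → ℂ → ℝ) (b g : Bool → ℂ → ℂ) (u' : Bool → ℂ → ℝ) (b' g' : Bool → ℂ → ℂ) (j : Bool) (d y : ℂ) :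
    Fin 8 → ℂ :=
  ![b j (psi d y), deriv (psi d) y * g j (psi d y), (u j (psi d y) : ℂ),
    deriv (psi d) y * dz (fun v => (u j v : ℂ)) (psi d y),
    b' j (psi d y), deriv (psi d) y * g' j (psi d y), (u' j (psi d y) : ℂ),
    deriv (psi d) y * dz (fun v => (u' j v : ℂ)) (psi d y)]

def EPC_L (d y : ℂ) (V : Fin 8 → ℂ) : ℝ := (V 2).re - 2 * Real.log (1 + ‖psi d y‖ ^ 2)

def EPC_G (D : Dat) (j : Bool) (d y : ℂ) (V : Fin 8 → ℂ) : Fin 8 → ℂ :=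
  ![(Real.exp (-EPC_L d y V) : ℂ) * conj (V 1),
    (Wr D.κ y : ℂ) * conj (QQ (D.p j (psi d y)) (D.r j (psi d y)) (EPC_L d y V) (V 0)),
    conj (V 3),
    ((Real.exp (-EPC_L d y V) * ‖V 1‖ ^ 2 + Wr D.κ y * (RR (D.p j (psi d y)) (D.r j (psi d y)) (EPC_L d y V) (V 0) +
      D.s j (psi d y)) + 2 * ‖deriv (psi d) y‖ ^ 2 / (1 + ‖psi d y‖ ^ 2) ^ 2 : ℝ) : ℂ),
    (Real.exp (-EPC_L d y V) : ℂ) * (conj (V 5) - ((V 6).re : ℂ) * conj (V 1)),
    (Wr D.κ y : ℂ) * conj (QQ' (D.p j (psi d y)) (D.r j (psi d y)) (EPC_L d y V) (V 0) (V 6).re (V 4)),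
    conj (V 7),
    ((Real.exp (-EPC_L d y V) * (2 * (conj (V 1) * V 5).re - (V 6).re * ‖V 1‖ ^ 2) +
      Wr D.κ y * RR' (D.p j (psi d y)) (D.r j (psi d y)) (EPC_L d y V) (V 0) (V 6).re (V 4) : ℝ) : ℂ)]

lemma EPC_smooth (hPS : EPS_stmt) (D : Dat) (hD : D.Valid) (j : Bool) (d : ℂ) (hd : d ^ 8 = 1) :
    ContDiffOn ℝ ∞ (fun x : ℂ × (Fin 8 → ℂ) => EPC_G D j d x.1 x.2) (Metric.ball 0 1 ×ˢ univ) := by
  obtain ⟨-, hψ, -, hW⟩ := hPS d hd
  have hκ : 0 < D.κ := by linarith [hD.hκ]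
  have hWr := (hW D.κ hκ).1
  set S : Set (ℂ × (Fin 8 → ℂ)) := Metric.ball 0 1 ×ˢ univ with hS
  have hfst : ContDiffOn ℝ ∞ (fun x : ℂ × (Fin 8 → ℂ) => x.1) S := contDiff_fst.contDiffOn
  have hmap : MapsTo (fun x : ℂ × (Fin 8 → ℂ) => x.1) S (Metric.ball 0 1) := fun x hx => hx.1
  have hψr : ContDiffOn ℝ ∞ (psi d) (Metric.ball 0 1) :=
    (hψ.contDiffOn Metric.isOpen_ball : ContDiffOn ℂ ∞ (psi d) (Metric.ball 0 1)).restrict_scalars ℝ
  have hψr' : ContDiffOn ℝ ∞ (deriv (psi d)) (Metric.ball 0 1) :=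
    ((hψ.deriv Metric.isOpen_ball).contDiffOn Metric.isOpen_ball :
      ContDiffOn ℂ ∞ (deriv (psi d)) (Metric.ball 0 1)).restrict_scalars ℝ
  have hψS : ContDiffOn ℝ ∞ (fun x : ℂ × (Fin 8 → ℂ) => psi d x.1) S := hψr.comp hfst hmap
  have hψS' : ContDiffOn ℝ ∞ (fun x : ℂ × (Fin 8 → ℂ) => deriv (psi d) x.1) S := hψr'.comp hfst hmap
  have hWS : ContDiffOn ℝ ∞ (fun x : ℂ × (Fin 8 → ℂ) => Wr D.κ x.1) S := hWr.comp hfst hmap
  have hpS : ContDiffOn ℝ ∞ (fun x : ℂ × (Fin 8 → ℂ) => D.p j (psi d x.1)) S :=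
    ((hD.hp j).contDiff.restrict_scalars ℝ : ContDiff ℝ ∞ (D.p j)).comp_contDiffOn hψS
  have hrS : ContDiffOn ℝ ∞ (fun x : ℂ × (Fin 8 → ℂ) => D.r j (psi d x.1)) S :=
    ((hD.hr j).contDiff.restrict_scalars ℝ : ContDiff ℝ ∞ (D.r j)).comp_contDiffOn hψS
  have hsS : ContDiffOn ℝ ∞ (fun x : ℂ × (Fin 8 → ℂ) => D.s j (psi d x.1)) S :=
    (hD.sr j d hd).comp hfst hmap
  have hV : ∀ i : Fin 8, ContDiffOn ℝ ∞ (fun x : ℂ × (Fin 8 → ℂ) => x.2 i) S := fun i =>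
    ((contDiff_apply ℝ ℂ i).comp contDiff_snd).contDiffOn
  have h1ψ : ContDiffOn ℝ ∞ (fun x : ℂ × (Fin 8 → ℂ) => 1 + ‖psi d x.1‖ ^ 2) S :=
    contDiffOn_const.add (EPC_ns hψS)
  have hne : ∀ x ∈ S, (1 + ‖psi d x.1‖ ^ 2 : ℝ) ≠ 0 := fun x _ => by positivity
  have hL : ContDiffOn ℝ ∞ (fun x : ℂ × (Fin 8 → ℂ) => EPC_L d x.1 x.2) S := by
    unfold EPC_L
    exact (EPC_re (hV 2)).sub (contDiffOn_const.mul (h1ψ.log hne))
  have hE : ContDiffOn ℝ ∞ (fun x : ℂ × (Fin 8 → ℂ) => Real.exp (-EPC_L d x.1 x.2)) S := hL.neg.exp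
  rw [contDiffOn_pi]
  intro i
  fin_cases i
  · exact (EPC_of hE).mul (EPC_c (hV 1))
  · exact (EPC_of hWS).mul (EPC_c (EPC_QQ hpS hrS hL (hV 0)))
  · exact EPC_c (hV 3)
  · exact EPC_of (((hE.mul (EPC_ns (hV 1))).add (hWS.mul ((EPC_RR hpS hrS hL (hV 0)).add hsS))).add
      ((contDiffOn_const.mul (EPC_ns hψS')).div (h1ψ.pow 2) fun x hx => pow_ne_zero 2 (hne x hx)))
  · exact (EPC_of hE).mul ((EPC_c (hV 5)).sub ((EPC_of (EPC_re (hV 6))).mul (EPC_c (hV 1))))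
  · exact (EPC_of hWS).mul (EPC_c (EPC_QQ' hpS hrS hL (hV 0) (EPC_re (hV 6)) (hV 4)))
  · exact EPC_c (hV 7)
  · exact EPC_of ((hE.mul ((contDiffOn_const.mul (EPC_re ((EPC_c (hV 1)).mul (hV 5)))).sub
      ((EPC_re (hV 6)).mul (EPC_ns (hV 1))))).add
      (hWS.mul (EPC_RR' hpS hrS hL (hV 0) (EPC_re (hV 6)) (hV 4))))

/-! ### Bounds -/

lemma EPC_mt4 (z : ℂ) : mt z ^ 4 = ‖1 - z ^ 8‖ := by
  unfold mt
  rw [← Real.rpow_natCast, ← Real.rpow_mul (norm_nonneg _)]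
  norm_num

lemma EPC_mt_nonneg (z : ℂ) : 0 ≤ mt z := Real.rpow_nonneg (norm_nonneg _) _

lemma EPC_mt_pos {z : ℂ} (hz : z ^ 8 ≠ 1) : 0 < mt z := by
  refine lt_of_le_of_ne (EPC_mt_nonneg z) ?_
  intro h
  have h4 := EPC_mt4 z
  rw [← h] at h4
  have h5 : ‖1 - z ^ 8‖ = 0 := by rw [← h4]; norm_num
  exact hz (sub_eq_zero.1 (norm_eq_zero.1 h5)).symm

/-- weight bounds on `ball 0 3` -/
lemma EPC_wb {z : ℂ} (hz3 : z ∈ Metric.ball (0 : ℂ) 3) (hz : z ^ 8 ≠ 1) :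
    1 ≤ 6562 * Wt 1 z ∧ (mt z)⁻¹ ^ 2 ≤ 6562 * Wt 1 z := by
  have hm := EPC_mt_pos hz
  have h4 := EPC_mt4 z
  have hn : 0 < ‖1 - z ^ 8‖ := norm_pos_iff.2 (sub_ne_zero.2 (Ne.symm hz))
  have hz3' : ‖z‖ < 3 := by rwa [Metric.mem_ball, dist_zero_right] at hz3
  have hQ : ‖1 - z ^ 8‖ ≤ 6562 := by
    have h1 : ‖1 - z ^ 8‖ ≤ ‖(1 : ℂ)‖ + ‖z ^ 8‖ := norm_sub_le _ _
    rw [norm_one, norm_pow] at h1
    have h2 : ‖z‖ ^ 8 ≤ 3 ^ 8 := pow_le_pow_left₀ (norm_nonneg _) hz3'.le 8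
    norm_num at h2
    linarith
  have hW : Wt 1 z = 1 / ‖1 - z ^ 8‖ := rfl
  constructor
  · rw [hW, mul_one_div, le_div_iff₀ hn, one_mul]; exact hQ
  · rw [hW, mul_one_div, le_div_iff₀ hn, ← h4]
    have h5 : (mt z)⁻¹ ^ 2 * mt z ^ 4 = mt z ^ 2 := by field_simp
    rw [h5]
    by_cases h6 : mt z ^ 2 ≤ 1
    · linarith
    · push Not at h6
      have h7 : mt z ^ 4 = mt z ^ 2 * mt z ^ 2 := by ring
      nlinarith

lemma EPC_bdd {f : ℂ → ℝ} (hf : Continuous f) : ∃ C : ℝ, 0 ≤ C ∧ ∀ z ∈ Metric.ball (0 : ℂ) 3, |f z| ≤ C := by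
  obtain ⟨C, hC⟩ := (isCompact_closedBall (0 : ℂ) 3).exists_bound_of_continuousOn hf.continuousOn
  refine ⟨C, (norm_nonneg _).trans (hC 0 (Metric.mem_closedBall_self (by norm_num))), ?_⟩
  intro z hz
  exact hC z (Metric.ball_subset_closedBall hz)

lemma EPC_near (hPS : EPS_stmt) (d : ℂ) (hd : d ^ 8 = 1) {f : ℂ → ℂ} {C : ℝ}
    (hf : ∀ z ∈ Metric.ball (0 : ℂ) 2, z ^ 8 ≠ 1 → ‖f z‖ ≤ C * (mt z)⁻¹) :
    ∀ᶠ y in 𝓝[≠] (0 : ℂ), ‖deriv (psi d) y * f (psi d y)‖ ≤ 4 * |C| := by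
  obtain ⟨h0, hψ, hy, -⟩ := hPS d hd
  have hdn : ‖d‖ = 1 := by
    have : ‖d‖ ^ 8 = 1 := by rw [← norm_pow, hd, norm_one]
    exact (pow_eq_one_iff_of_nonneg (norm_nonneg _) (by norm_num)).1 this
  have hψc : ContinuousAt (psi d) 0 :=
    (hψ.differentiableAt (Metric.isOpen_ball.mem_nhds (Metric.mem_ball_self one_pos))).continuousAt
  have e1 : ∀ᶠ y in 𝓝 (0 : ℂ), ‖psi d y‖ < 2 := by
    refine hψc.norm.eventually_lt_const ?_
    show ‖psi d 0‖ < 2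
    rw [h0, hdn]; norm_num
  have e2 : ∀ᶠ y in 𝓝 (0 : ℂ), ‖y‖ < 1 / 2 := by
    have := continuous_norm.continuousAt (x := (0 : ℂ))
    refine this.eventually_lt_const ?_
    show ‖(0 : ℂ)‖ < 1 / 2
    rw [norm_zero]; norm_num
  filter_upwards [nhdsWithin_le_nhds e1, nhdsWithin_le_nhds e2, self_mem_nhdsWithin] with y hy1 hy2 hy0
  have hy0' : y ≠ 0 := hy0
  have hyB : y ∈ Metric.ball (0 : ℂ) 1 := by
    rw [Metric.mem_ball, dist_zero_right]; linarith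
  obtain ⟨a1, a2, a3, a4⟩ := hy y hyB
  have hNs : psi d y ^ 8 ≠ 1 := a4 hy0'
  have hyn : 0 < ‖y‖ := norm_pos_iff.2 hy0'
  have hfb := hf (psi d y) (by rw [Metric.mem_ball, dist_zero_right]; exact hy1) hNs
  -- `mt (ψ y) ≥ ‖y‖`
  have hmt : ‖y‖ ≤ mt (psi d y) := by
    refine le_of_pow_le_pow_left₀ (n := 4) (by norm_num) (EPC_mt_nonneg _) ?_
    rw [EPC_mt4, a1, norm_pow, norm_div, norm_mul]
    have h1 : ‖(1 : ℂ) + y ^ 2‖ ≤ 2 := by
      have h2 : ‖(1 : ℂ) + y ^ 2‖ ≤ ‖(1 : ℂ)‖ + ‖y ^ 2‖ := norm_add_le _ _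
      rw [norm_one, norm_pow] at h2
      nlinarith
    have h3 : 0 < ‖(1 : ℂ) + y ^ 2‖ := by
      have h4 : ‖(1 : ℂ)‖ - ‖-y ^ 2‖ ≤ ‖(1 : ℂ) - -y ^ 2‖ := norm_sub_norm_le _ _
      rw [norm_neg, norm_pow, norm_one, sub_neg_eq_add] at h4
      nlinarith
    have h5 : ‖y‖ ≤ ‖(2 : ℂ)‖ * ‖y‖ / ‖1 + y ^ 2‖ := by
      rw [le_div_iff₀ h3, Complex.norm_ofNat]
      nlinarith
    calc ‖y‖ ^ 4 ≤ ‖y‖ ^ 2 := pow_le_pow_of_le_one hyn.le (by linarith) (by norm_num)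
      _ ≤ (‖(2 : ℂ)‖ * ‖y‖ / ‖1 + y ^ 2‖) ^ 2 := pow_le_pow_left₀ (norm_nonneg _) h5 2
  have hmp : 0 < mt (psi d y) := EPC_mt_pos hNs
  -- `‖ψ'‖ ≤ 4 ‖y‖`
  have hder : ‖deriv (psi d) y‖ ≤ 4 * ‖y‖ := by
    rw [a3, norm_div, norm_mul, norm_neg]
    have h1 : 1 / 2 ≤ ‖(1 : ℂ) - y ^ 4‖ := by
      have h4 : ‖(1 : ℂ)‖ - ‖y ^ 4‖ ≤ ‖(1 : ℂ) - y ^ 4‖ := norm_sub_norm_le _ _
      rw [norm_pow, norm_one] at h4
      have h5 : ‖y‖ ^ 4 ≤ (1 / 2) ^ 4 := pow_le_pow_left₀ (norm_nonneg _) hy2.le 4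
      norm_num at h5
      linarith
    rw [div_le_iff₀ (by linarith)]
    have h2 : ‖psi d y‖ * ‖y‖ ≤ 2 * ‖y‖ := mul_le_mul_of_nonneg_right hy1.le hyn.le
    nlinarith
  rw [norm_mul]
  have h1 : ‖f (psi d y)‖ ≤ |C| * ‖y‖⁻¹ := by
    refine hfb.trans ?_
    have h2 : (mt (psi d y))⁻¹ ≤ ‖y‖⁻¹ := inv_anti₀ hyn hmt
    calc C * (mt (psi d y))⁻¹ ≤ |C| * (mt (psi d y))⁻¹ :=
          mul_le_mul_of_nonneg_right (le_abs_self C) (inv_nonneg.2 hmp.le)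
      _ ≤ |C| * ‖y‖⁻¹ := mul_le_mul_of_nonneg_left h2 (abs_nonneg C)
  calc ‖deriv (psi d) y‖ * ‖f (psi d y)‖ ≤ (4 * ‖y‖) * (|C| * ‖y‖⁻¹) :=
        mul_le_mul hder h1 (norm_nonneg _) (by positivity)
    _ = 4 * |C| := by field_simp

/-! ### The bounds of the densities -/

lemma EPC_wtk (κ : ℝ) (z : ℂ) : Wt κ z = κ * Wt 1 z := by unfold Wt; ring

lemma EPC_wt_nonneg (z : ℂ) : 0 ≤ Wt 1 z := by unfold Wt; positivity

lemma EPC_Ls {u : ℂ → ℝ} (hu : Continuous u) : Continuous (Ls u) := by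
  unfold Ls
  refine hu.sub (continuous_const.mul (Continuous.log (by fun_prop) ?_))
  intro z; positivity

lemma EPC_FdC (D : Dat) (hD : D.Valid) {u : Bool → ℂ → ℝ} {b g : Bool → ℂ → ℂ} (h : GS D u b g) (j : Bool) :
    ∃ C : ℝ, ∀ z ∈ Metric.ball (0 : ℂ) 3, z ^ 8 ≠ 1 → |Fd D u b g j z| ≤ C * Wt 1 z := by
  have hL := EPC_Ls (h.cu j)
  have hA : Continuous fun z => Real.exp (-Ls (u j) z) := hL.neg.rexp
  have hR : Continuous fun z => RR (D.p j z) (D.r j z) (Ls (u j) z) (b j z) + D.s j z := by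
    have h1 : ContDiff ℝ 0 (fun x : ℂ × ℂ × ℝ × ℂ => RR x.1 x.2.1 x.2.2.1 x.2.2.2) := by
      rw [← contDiffOn_univ]
      exact EPC_RR contDiff_fst.contDiffOn (contDiff_fst.comp contDiff_snd).contDiffOn
        (contDiff_fst.comp (contDiff_snd.comp contDiff_snd)).contDiffOn
        (contDiff_snd.comp (contDiff_snd.comp contDiff_snd)).contDiffOn
    have h2 := h1.continuous.comp (((hD.hp j).continuous).prodMk (((hD.hr j).continuous).prodMk (hL.prodMk (h.cb j))))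
    exact h2.add (hD.cs j)
  obtain ⟨C₁, c1, hC₁⟩ := EPC_bdd hA
  obtain ⟨C₂, c2, hC₂⟩ := EPC_bdd hR
  obtain ⟨C, hC⟩ := h.bg 3
  refine ⟨C₁ * (C ^ 2 * 6562) + |D.κ| * C₂ + 2 * 6562, ?_⟩
  intro z hz3 hz
  obtain ⟨w1, w2⟩ := EPC_wb hz3 hz
  have hW := EPC_wt_nonneg z
  have hg : ‖g j z‖ ^ 2 ≤ C ^ 2 * (6562 * Wt 1 z) := by
    have h1 := hC j z hz3 hz
    calc ‖g j z‖ ^ 2 ≤ (C * (mt z)⁻¹) ^ 2 := pow_le_pow_left₀ (norm_nonneg _) h1 2
      _ = C ^ 2 * (mt z)⁻¹ ^ 2 := by ring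
      _ ≤ _ := mul_le_mul_of_nonneg_left w2 (sq_nonneg _)
  have t1 : |Real.exp (-Ls (u j) z) * ‖g j z‖ ^ 2| ≤ C₁ * (C ^ 2 * (6562 * Wt 1 z)) := by
    rw [abs_mul, abs_of_nonneg (sq_nonneg ‖g j z‖)]
    exact mul_le_mul (hC₁ z hz3) hg (sq_nonneg _) c1
  have t2 : |Wt D.κ z * (RR (D.p j z) (D.r j z) (Ls (u j) z) (b j z) + D.s j z)| ≤ |D.κ| * Wt 1 z * C₂ := by
    rw [EPC_wtk, abs_mul, abs_mul, abs_of_nonneg hW]
    exact mul_le_mul_of_nonneg_left (hC₂ z hz3) (by positivity)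
  have t3 : |2 / (1 + ‖z‖ ^ 2) ^ 2| ≤ 2 * (6562 * Wt 1 z) := by
    rw [abs_of_nonneg (by positivity)]
    have h1 : 2 / (1 + ‖z‖ ^ 2) ^ 2 ≤ 2 := by
      rw [div_le_iff₀ (by positivity)]
      nlinarith [sq_nonneg ‖z‖, sq_nonneg (‖z‖ ^ 2)]
    linarith
  unfold Fd
  have h5 := abs_add_le (Real.exp (-Ls (u j) z) * ‖g j z‖ ^ 2 +
    Wt D.κ z * (RR (D.p j z) (D.r j z) (Ls (u j) z) (b j z) + D.s j z)) (2 / (1 + ‖z‖ ^ 2) ^ 2)
  have h6 := abs_add_le (Real.exp (-Ls (u j) z) * ‖g j z‖ ^ 2)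
    (Wt D.κ z * (RR (D.p j z) (D.r j z) (Ls (u j) z) (b j z) + D.s j z))
  calc _ ≤ C₁ * (C ^ 2 * (6562 * Wt 1 z)) + |D.κ| * Wt 1 z * C₂ + 2 * (6562 * Wt 1 z) := by linarith
    _ = _ := by ring

lemma EPC_FdC' (D : Dat) (hD : D.Valid) {u : Bool → ℂ → ℝ} {b g : Bool → ℂ → ℂ} {u' : Bool → ℂ → ℝ}
    {b' g' : Bool → ℂ → ℂ} (h : GS D u b g) (h' : GSL D u b g u' b' g') (j : Bool) :
    ∃ C : ℝ, ∀ z ∈ Metric.ball (0 : ℂ) 3, z ^ 8 ≠ 1 → |Fd' D u b g u' b' g' j z| ≤ C * Wt 1 z := by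
  have hL := EPC_Ls (h.cu j)
  have hA : Continuous fun z => Real.exp (-Ls (u j) z) := hL.neg.rexp
  have hR : Continuous fun z => RR' (D.p j z) (D.r j z) (Ls (u j) z) (b j z) (u' j z) (b' j z) := by
    have h1 : ContDiff ℝ 0 (fun x : ℂ × ℂ × ℝ × ℂ × ℝ × ℂ => RR' x.1 x.2.1 x.2.2.1 x.2.2.2.1 x.2.2.2.2.1 x.2.2.2.2.2) := by
      rw [← contDiffOn_univ]
      exact EPC_RR' contDiff_fst.contDiffOn (contDiff_fst.comp contDiff_snd).contDiffOn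
        (contDiff_fst.comp (contDiff_snd.comp contDiff_snd)).contDiffOn
        (contDiff_fst.comp (contDiff_snd.comp (contDiff_snd.comp contDiff_snd))).contDiffOn
        (contDiff_fst.comp (contDiff_snd.comp (contDiff_snd.comp (contDiff_snd.comp contDiff_snd)))).contDiffOn
        (contDiff_snd.comp (contDiff_snd.comp (contDiff_snd.comp (contDiff_snd.comp contDiff_snd)))).contDiffOn
    exact h1.continuous.comp (((hD.hp j).continuous).prodMk (((hD.hr j).continuous).prodMk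
      (hL.prodMk ((h.cb j).prodMk ((h'.cu j).prodMk (h'.cb j))))))
  obtain ⟨C₁, c1, hC₁⟩ := EPC_bdd hA
  obtain ⟨C₂, c2, hC₂⟩ := EPC_bdd hR
  obtain ⟨C₃, c3, hC₃⟩ := EPC_bdd (h'.cu j)
  obtain ⟨C, hC⟩ := h.bg 3
  obtain ⟨C', hC'⟩ := h'.bg 3
  refine ⟨C₁ * (2 * (|C| * |C'| * 6562) + C₃ * (C ^ 2 * 6562)) + |D.κ| * C₂, ?_⟩
  intro z hz3 hz
  obtain ⟨w1, w2⟩ := EPC_wb hz3 hz
  have hW := EPC_wt_nonneg z
  have hm := EPC_mt_pos hz
  have hmi : 0 ≤ (mt z)⁻¹ := inv_nonneg.2 hm.le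
  have hg : ‖g j z‖ ^ 2 ≤ C ^ 2 * (6562 * Wt 1 z) := by
    have h1 := hC j z hz3 hz
    calc ‖g j z‖ ^ 2 ≤ (C * (mt z)⁻¹) ^ 2 := pow_le_pow_left₀ (norm_nonneg _) h1 2
      _ = C ^ 2 * (mt z)⁻¹ ^ 2 := by ring
      _ ≤ _ := mul_le_mul_of_nonneg_left w2 (sq_nonneg _)
  have hgg : ‖g j z‖ * ‖g' j z‖ ≤ |C| * |C'| * (6562 * Wt 1 z) := by
    have h1 : ‖g j z‖ ≤ |C| * (mt z)⁻¹ := (hC j z hz3 hz).trans (mul_le_mul_of_nonneg_right (le_abs_self C) hmi)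
    have h2 : ‖g' j z‖ ≤ |C'| * (mt z)⁻¹ := (hC' j z hz3 hz).trans (mul_le_mul_of_nonneg_right (le_abs_self C') hmi)
    calc ‖g j z‖ * ‖g' j z‖ ≤ (|C| * (mt z)⁻¹) * (|C'| * (mt z)⁻¹) :=
          mul_le_mul h1 h2 (norm_nonneg _) (by positivity)
      _ = |C| * |C'| * (mt z)⁻¹ ^ 2 := by ring
      _ ≤ _ := mul_le_mul_of_nonneg_left w2 (by positivity)
  have hre : |(conj (g j z) * g' j z).re| ≤ ‖g j z‖ * ‖g' j z‖ := by
    refine (Complex.abs_re_le_norm _).trans ?_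
    rw [norm_mul, Complex.norm_conj]
  have t1 : |Real.exp (-Ls (u j) z) * (2 * (conj (g j z) * g' j z).re - u' j z * ‖g j z‖ ^ 2)| ≤
      C₁ * (2 * (|C| * |C'| * (6562 * Wt 1 z)) + C₃ * (C ^ 2 * (6562 * Wt 1 z))) := by
    rw [abs_mul]
    refine mul_le_mul (hC₁ z hz3) ?_ (abs_nonneg _) c1
    refine (abs_sub _ _).trans ?_
    rw [abs_mul, abs_mul, abs_of_nonneg (sq_nonneg ‖g j z‖), abs_of_pos (by norm_num : (0 : ℝ) < 2)]
    have h3 : |u' j z| * ‖g j z‖ ^ 2 ≤ C₃ * (C ^ 2 * (6562 * Wt 1 z)) := mul_le_mul (hC₃ z hz3) hg (sq_nonneg _) c3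
    linarith
  have t2 : |Wt D.κ z * RR' (D.p j z) (D.r j z) (Ls (u j) z) (b j z) (u' j z) (b' j z)| ≤ |D.κ| * Wt 1 z * C₂ := by
    rw [EPC_wtk, abs_mul, abs_mul, abs_of_nonneg hW]
    exact mul_le_mul_of_nonneg_left (hC₂ z hz3) (by positivity)
  unfold Fd'
  have h5 := abs_add_le (Real.exp (-Ls (u j) z) * (2 * (conj (g j z) * g' j z).re - u' j z * ‖g j z‖ ^ 2))
    (Wt D.κ z * RR' (D.p j z) (D.r j z) (Ls (u j) z) (b j z) (u' j z) (b' j z))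
  calc _ ≤ C₁ * (2 * (|C| * |C'| * (6562 * Wt 1 z)) + C₃ * (C ^ 2 * (6562 * Wt 1 z))) + |D.κ| * Wt 1 z * C₂ := by linarith
    _ = _ := by ring

lemma EPC_Fdcont (hKC : EKC_stmt) (D : Dat) (hD : D.Valid) {u : Bool → ℂ → ℝ} {b g : Bool → ℂ → ℂ} (h : GS D u b g)
    (j : Bool) : ContinuousOn (Fd D u b g j) Ns := by
  have hL := EPC_Ls (h.cu j)
  have hA : Continuous fun z => Real.exp (-Ls (u j) z) := hL.neg.rexp
  have hR : Continuous fun z => RR (D.p j z) (D.r j z) (Ls (u j) z) (b j z) + D.s j z := by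
    have h1 : ContDiff ℝ 0 (fun x : ℂ × ℂ × ℝ × ℂ => RR x.1 x.2.1 x.2.2.1 x.2.2.2) := by
      rw [← contDiffOn_univ]
      exact EPC_RR contDiff_fst.contDiffOn (contDiff_fst.comp contDiff_snd).contDiffOn
        (contDiff_fst.comp (contDiff_snd.comp contDiff_snd)).contDiffOn
        (contDiff_snd.comp (contDiff_snd.comp contDiff_snd)).contDiffOn
    have h2 := h1.continuous.comp (((hD.hp j).continuous).prodMk (((hD.hr j).continuous).prodMk (hL.prodMk (h.cb j))))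
    exact h2.add (hD.cs j)
  have hW : ContinuousOn (Wt D.κ) Ns := (hKC.2.2.2.2.2.2.1 D.κ).continuousOn
  have hc : Continuous fun z : ℂ => (2 : ℝ) / (1 + ‖z‖ ^ 2) ^ 2 := by
    refine continuous_const.div (by fun_prop) ?_
    intro z; positivity
  exact ((hA.continuousOn.mul ((h.cg j).norm.pow 2)).add (hW.mul hR.continuousOn)).add hc.continuousOn

lemma EPC_Fdcont' (hKC : EKC_stmt) (D : Dat) (hD : D.Valid) {u : Bool → ℂ → ℝ} {b g : Bool → ℂ → ℂ}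
    {u' : Bool → ℂ → ℝ} {b' g' : Bool → ℂ → ℂ} (h : GS D u b g) (h' : GSL D u b g u' b' g') (j : Bool) :
    ContinuousOn (Fd' D u b g u' b' g' j) Ns := by
  have hL := EPC_Ls (h.cu j)
  have hA : Continuous fun z => Real.exp (-Ls (u j) z) := hL.neg.rexp
  have hR : Continuous fun z => RR' (D.p j z) (D.r j z) (Ls (u j) z) (b j z) (u' j z) (b' j z) := by
    have h1 : ContDiff ℝ 0 (fun x : ℂ × ℂ × ℝ × ℂ × ℝ × ℂ => RR' x.1 x.2.1 x.2.2.1 x.2.2.2.1 x.2.2.2.2.1 x.2.2.2.2.2) := by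
      rw [← contDiffOn_univ]
      exact EPC_RR' contDiff_fst.contDiffOn (contDiff_fst.comp contDiff_snd).contDiffOn
        (contDiff_fst.comp (contDiff_snd.comp contDiff_snd)).contDiffOn
        (contDiff_fst.comp (contDiff_snd.comp (contDiff_snd.comp contDiff_snd))).contDiffOn
        (contDiff_fst.comp (contDiff_snd.comp (contDiff_snd.comp (contDiff_snd.comp contDiff_snd)))).contDiffOn
        (contDiff_snd.comp (contDiff_snd.comp (contDiff_snd.comp (contDiff_snd.comp contDiff_snd)))).contDiffOn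
    exact h1.continuous.comp (((hD.hp j).continuous).prodMk (((hD.hr j).continuous).prodMk
      (hL.prodMk ((h.cb j).prodMk ((h'.cu j).prodMk (h'.cb j))))))
  have hW : ContinuousOn (Wt D.κ) Ns := (hKC.2.2.2.2.2.2.1 D.κ).continuousOn
  have hcj : ContinuousOn (fun z => (conj (g j z) * g' j z).re) Ns :=
    Complex.continuous_re.comp_continuousOn ((Complex.continuous_conj.comp_continuousOn (h.cg j)).mul (h'.cg j))
  exact (hA.continuousOn.mul ((continuousOn_const.mul hcj).sub ((h'.cu j).continuousOn.mul ((h.cg j).norm.pow 2)))).add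
    (hW.mul hR.continuousOn)

/-! ### The theorem -/

lemma EPC_ext {f g : ℂ → ℂ} (hf : ContinuousAt f 0) (hg : ContinuousAt g 0)
    (h : ∀ y ∈ Metric.ball (0 : ℂ) 1 \ {0}, f y = g y) : f 0 = g 0 := by
  have h1 : Tendsto f (𝓝[≠] 0) (𝓝 (f 0)) := hf.tendsto.mono_left nhdsWithin_le_nhds
  have h2 : Tendsto g (𝓝[≠] 0) (𝓝 (g 0)) := hg.tendsto.mono_left nhdsWithin_le_nhds
  refine tendsto_nhds_unique h1 (h2.congr' ?_)
  have h3 : ∀ᶠ y in 𝓝[≠] (0 : ℂ), y ∈ Metric.ball (0 : ℂ) 1 :=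
    nhdsWithin_le_nhds (Metric.isOpen_ball.mem_nhds (Metric.mem_ball_self one_pos))
  filter_upwards [h3, self_mem_nhdsWithin] with y hy1 hy2
  exact (h y ⟨hy1, hy2⟩).symm

lemma EPC_nb {f : ℂ → ℂ} (hf : ContinuousAt f 0) : ∃ M : ℝ, ∀ᶠ y in 𝓝[≠] (0 : ℂ), ‖f y‖ ≤ M := by
  refine ⟨‖f 0‖ + 1, ?_⟩
  have h := hf.norm.eventually_lt_const (show (fun x => ‖f x‖) 0 < ‖f 0‖ + 1 by simp)
  exact nhdsWithin_le_nhds (h.mono fun y hy => hy.le)

theorem EPC (hKC : EKC_stmt) (hPS : EPS_stmt) (hPA : EPA_stmt) (hPB : EPB_stmt) (hRL : ERL_stmt) : EPC_stmt := by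
  intro D u b g u' b' g' hD h h' j d hd
  obtain ⟨⟨su, sb, sg, sdu⟩, eq, ⟨su', sb', sg', sdu'⟩, eq'⟩ := hPA D u b g u' b' g' hD h h' j
  obtain ⟨h0, hψ, hy, hWr⟩ := hPS d hd
  have hκ : 0 < D.κ := by linarith [hD.hκ]
  have hWr2 := (hWr D.κ hκ).2.2
  have hNs : IsOpen Ns := hKC.2.2.2.2.2.2.2.1
  have hB0 : (0 : ℂ) ∈ Metric.ball (0 : ℂ) 1 := Metric.mem_ball_self one_pos
  have hmaps : MapsTo (psi d) (Metric.ball 0 1 \ {0}) Ns := fun y hy' => (hy y hy'.1).2.2.2 hy'.2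
  have hψr : ContDiffOn ℝ 2 (psi d) (Metric.ball 0 1) :=
    (hψ.contDiffOn Metric.isOpen_ball : ContDiffOn ℂ 2 (psi d) (Metric.ball 0 1)).restrict_scalars ℝ
  have hψr' : ContDiffOn ℝ 2 (deriv (psi d)) (Metric.ball 0 1) :=
    ((hψ.deriv Metric.isOpen_ball).contDiffOn Metric.isOpen_ball :
      ContDiffOn ℂ 2 (deriv (psi d)) (Metric.ball 0 1)).restrict_scalars ℝ
  have hψd : ∀ y ∈ Metric.ball (0 : ℂ) 1, DifferentiableAt ℂ (psi d) y := fun y hy' =>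
    hψ.differentiableAt (Metric.isOpen_ball.mem_nhds hy')
  have hψd' : ∀ y ∈ Metric.ball (0 : ℂ) 1, DifferentiableAt ℂ (deriv (psi d)) y := fun y hy' =>
    (hψ.deriv Metric.isOpen_ball).differentiableAt (Metric.isOpen_ball.mem_nhds hy')
  have hψc : ContinuousAt (psi d) 0 := (hψd 0 hB0).continuousAt
  -- complex versions
  have cu : ContDiffOn ℝ 2 (fun z => (u j z : ℂ)) Ns := EPC_of su
  have cu' : ContDiffOn ℝ 2 (fun z => (u' j z : ℂ)) Ns := EPC_of su'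
  -- (b)
  have c0 : ∀ {f : ℂ → ℂ}, ContDiffOn ℝ 2 f Ns → ContDiffOn ℝ 2 (fun y => f (psi d y)) (Metric.ball 0 1 \ {0}) :=
    fun hf => hf.comp (hψr.mono sdiff_subset) hmaps
  have c1 : ∀ {f : ℂ → ℂ}, ContDiffOn ℝ 2 f Ns →
      ContDiffOn ℝ 2 (fun y => deriv (psi d) y * f (psi d y)) (Metric.ball 0 1 \ {0}) :=
    fun hf => (hψr'.mono sdiff_subset).mul (c0 hf)
  have hV : ContDiffOn ℝ 1 (EPC_V u b g u' b' g' j d) (Metric.ball 0 1 \ {0}) := by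
    have hV2 : ContDiffOn ℝ 2 (EPC_V u b g u' b' g' j d) (Metric.ball 0 1 \ {0}) := by
      rw [contDiffOn_pi]
      intro i
      fin_cases i
      · exact c0 sb
      · exact c1 sg
      · exact c0 cu
      · exact c1 sdu
      · exact c0 sb'
      · exact c1 sg'
      · exact c0 cu'
      · exact c1 sdu'
    exact hV2.of_le (by norm_num)
  -- (c)
  have cd : ∀ {f : ℂ → ℂ}, ContDiffOn ℝ 2 f Ns → ∀ y ∈ Metric.ball (0 : ℂ) 1 \ {0}, DifferentiableAt ℝ f (psi d y) :=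
    fun hf y hy' => (hf.contDiffAt (hNs.mem_nhds (hmaps hy'))).differentiableAt (by norm_num)
  have cdu : DifferentiableOn ℝ (u j) Ns := su.differentiableOn (by norm_num)
  have cdu' : DifferentiableOn ℝ (u' j) Ns := su'.differentiableOn (by norm_num)
  have k1 : ∀ {f : ℂ → ℂ}, ContDiffOn ℝ 2 f Ns → ∀ y ∈ Metric.ball (0 : ℂ) 1 \ {0},
      dzb (fun w => f (psi d w)) y = conj (deriv (psi d) y) * dzb f (psi d y) :=
    fun hf y hy' => EPC_chain (cd hf y hy') (hψd y hy'.1)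
  have k2 : ∀ {f : ℂ → ℂ}, ContDiffOn ℝ 2 f Ns → ∀ y ∈ Metric.ball (0 : ℂ) 1 \ {0},
      dzb (fun w => deriv (psi d) w * f (psi d w)) y = ((‖deriv (psi d) y‖ ^ 2 : ℝ) : ℂ) * dzb f (psi d y) := by
    intro f hf y hy'
    have h1 : DifferentiableAt ℝ (fun w => f (psi d w)) y :=
      (cd hf y hy').comp y ((hψd y hy'.1).restrictScalars ℝ)
    rw [EPC_mul (hψd' y hy'.1) h1, k1 hf y hy', ← mul_assoc, Complex.mul_conj, Complex.normSq_eq_norm_sq]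
  have hc : ∀ y ∈ Metric.ball (0 : ℂ) 1 \ {0}, ∀ i, dzb (fun w => EPC_V u b g u' b' g' j d w i) y =
      EPC_G D j d y (EPC_V u b g u' b' g' j d y) i := by
    intro y hy' i
    have hz : psi d y ∈ Ns := hmaps hy'
    obtain ⟨e1, e2, e3⟩ := eq (psi d y) hz
    obtain ⟨e1', e2', e3'⟩ := eq' (psi d y) hz
    have hW := hWr2 y hy'.1
    have hW' : Wr D.κ y = Wt D.κ (psi d y) * ‖deriv (psi d) y‖ ^ 2 := hW.2.2 hy'.2
    have hdu : DifferentiableAt ℝ (u j) (psi d y) := cdu.differentiableAt (hNs.mem_nhds hz)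
    have hdu' : DifferentiableAt ℝ (u' j) (psi d y) := cdu'.differentiableAt (hNs.mem_nhds hz)
    have hL : EPC_L d y (EPC_V u b g u' b' g' j d y) = Ls (u j) (psi d y) := rfl
    fin_cases i
    · show dzb (fun w => b j (psi d w)) y = (Real.exp (-EPC_L d y (EPC_V u b g u' b' g' j d y)) : ℂ) *
        conj (deriv (psi d) y * g j (psi d y))
      rw [k1 sb y hy', e1, hL, map_mul]; unfold bet; ring
    · show dzb (fun w => deriv (psi d) w * g j (psi d w)) y = (Wr D.κ y : ℂ) * conj (QQ (D.p j (psi d y))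
        (D.r j (psi d y)) (EPC_L d y (EPC_V u b g u' b' g' j d y)) (b j (psi d y)))
      rw [k2 sg y hy', e2, hL, hW']; unfold phi; push_cast; ring
    · show dzb (fun w => (u j (psi d w) : ℂ)) y = conj (deriv (psi d) y * dz (fun v => (u j v : ℂ)) (psi d y))
      rw [k1 cu y hy', EPC_conj hdu, map_mul]
    · show dzb (fun w => deriv (psi d) w * dz (fun v => (u j v : ℂ)) (psi d w)) y =
        ((Real.exp (-EPC_L d y (EPC_V u b g u' b' g' j d y)) * ‖deriv (psi d) y * g j (psi d y)‖ ^ 2 +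
          Wr D.κ y * (RR (D.p j (psi d y)) (D.r j (psi d y)) (EPC_L d y (EPC_V u b g u' b' g' j d y)) (b j (psi d y)) +
          D.s j (psi d y)) + 2 * ‖deriv (psi d) y‖ ^ 2 / (1 + ‖psi d y‖ ^ 2) ^ 2 : ℝ) : ℂ)
      rw [k2 sdu y hy', e3, hL, hW', norm_mul, ← Complex.ofReal_mul]
      congr 1
      unfold Fd; ring
    · show dzb (fun w => b' j (psi d w)) y = (Real.exp (-EPC_L d y (EPC_V u b g u' b' g' j d y)) : ℂ) *
        (conj (deriv (psi d) y * g' j (psi d y)) - ((u' j (psi d y) : ℂ).re : ℂ) * conj (deriv (psi d) y * g j (psi d y)))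
      rw [k1 sb' y hy', e1', hL, map_mul, map_mul, Complex.ofReal_re]; unfold bet'; ring
    · show dzb (fun w => deriv (psi d) w * g' j (psi d w)) y = (Wr D.κ y : ℂ) * conj (QQ' (D.p j (psi d y))
        (D.r j (psi d y)) (EPC_L d y (EPC_V u b g u' b' g' j d y)) (b j (psi d y)) (u' j (psi d y) : ℂ).re (b' j (psi d y)))
      rw [k2 sg' y hy', e2', hL, hW', Complex.ofReal_re]; unfold phi'; push_cast; ring
    · show dzb (fun w => (u' j (psi d w) : ℂ)) y = conj (deriv (psi d) y * dz (fun v => (u' j v : ℂ)) (psi d y))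
      rw [k1 cu' y hy', EPC_conj hdu', map_mul]
    · show dzb (fun w => deriv (psi d) w * dz (fun v => (u' j v : ℂ)) (psi d w)) y =
        ((Real.exp (-EPC_L d y (EPC_V u b g u' b' g' j d y)) *
          (2 * (conj (deriv (psi d) y * g j (psi d y)) * (deriv (psi d) y * g' j (psi d y))).re -
            (u' j (psi d y) : ℂ).re * ‖deriv (psi d) y * g j (psi d y)‖ ^ 2) +
          Wr D.κ y * RR' (D.p j (psi d y)) (D.r j (psi d y)) (EPC_L d y (EPC_V u b g u' b' g' j d y)) (b j (psi d y))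
            (u' j (psi d y) : ℂ).re (b' j (psi d y)) : ℝ) : ℂ)
      have hre : (conj (deriv (psi d) y * g j (psi d y)) * (deriv (psi d) y * g' j (psi d y))).re =
          ‖deriv (psi d) y‖ ^ 2 * (conj (g j (psi d y)) * g' j (psi d y)).re := by
        have h1 : conj (deriv (psi d) y * g j (psi d y)) * (deriv (psi d) y * g' j (psi d y)) =
            ((‖deriv (psi d) y‖ ^ 2 : ℝ) : ℂ) * (conj (g j (psi d y)) * g' j (psi d y)) := by
          rw [map_mul, ← Complex.normSq_eq_norm_sq, ← Complex.mul_conj]; ring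
        rw [h1, Complex.re_ofReal_mul]
      rw [k2 sdu' y hy', e3', hL, hW', norm_mul, ← Complex.ofReal_mul, hre, Complex.ofReal_re]
      congr 1
      unfold Fd'; ring
  -- (d)
  obtain ⟨Cg, hCg⟩ := h.bg 2
  obtain ⟨Cg', hCg'⟩ := h'.bg 2
  obtain ⟨hFi, hu3, hhu3, hru3⟩ := h.ru j 3 (by norm_num)
  obtain ⟨hFi', hu3', hhu3', hru3'⟩ := h'.ru j 3 (by norm_num)
  obtain ⟨CF, hCF⟩ := EPC_FdC D hD h j
  obtain ⟨CF', hCF'⟩ := EPC_FdC' D hD h h' j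
  obtain ⟨Cd, hCd⟩ := hPB _ (u j) hu3 CF hFi (EPC_Fdcont hKC D hD h j) hCF hhu3 hru3
  obtain ⟨Cd', hCd'⟩ := hPB _ (u' j) hu3' CF' hFi' (EPC_Fdcont' hKC D hD h h' j) hCF' hhu3' hru3'
  have kb : ContinuousAt (fun y => b j (psi d y)) 0 := (h.cb j).continuousAt.comp hψc
  have ku : ContinuousAt (fun y => (u j (psi d y) : ℂ)) 0 :=
    Complex.continuous_ofReal.continuousAt.comp ((h.cu j).continuousAt.comp hψc)
  have kb' : ContinuousAt (fun y => b' j (psi d y)) 0 := (h'.cb j).continuousAt.comp hψc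
  have ku' : ContinuousAt (fun y => (u' j (psi d y) : ℂ)) 0 :=
    Complex.continuous_ofReal.continuousAt.comp ((h'.cu j).continuousAt.comp hψc)
  have hbd : ∀ i, ∃ M : ℝ, ∀ᶠ y in 𝓝[≠] (0 : ℂ), ‖EPC_V u b g u' b' g' j d y i‖ ≤ M := by
    intro i
    fin_cases i
    · exact EPC_nb kb
    · exact ⟨_, EPC_near hPS d hd fun z hz hz8 => hCg j z hz hz8⟩
    · exact EPC_nb ku
    · exact ⟨_, EPC_near hPS d hd hCd⟩
    · exact EPC_nb kb'
    · exact ⟨_, EPC_near hPS d hd fun z hz hz8 => hCg' j z hz hz8⟩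
    · exact EPC_nb ku'
    · exact ⟨_, EPC_near hPS d hd hCd'⟩
  choose M hM using hbd
  have hbd2 : ∃ M ρ : ℝ, 0 < ρ ∧ ∀ z ∈ Metric.ball (0 : ℂ) ρ \ {0}, ‖EPC_V u b g u' b' g' j d z‖ ≤ M := by
    have h1 : ∀ᶠ y in 𝓝[≠] (0 : ℂ), ∀ i, ‖EPC_V u b g u' b' g' j d y i‖ ≤ M i := eventually_all.2 hM
    obtain ⟨ρ, hρ, h2⟩ := Metric.mem_nhdsWithin_iff.1 h1
    refine ⟨∑ i, |M i|, ρ, hρ, ?_⟩
    intro z hz
    rw [pi_norm_le_iff_of_nonneg (Finset.sum_nonneg fun i _ => abs_nonneg _)]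
    intro i
    have h3 : ∀ i, ‖EPC_V u b g u' b' g' j d z i‖ ≤ M i := h2 ⟨hz.1, hz.2⟩
    exact ((h3 i).trans (le_abs_self _)).trans
      (Finset.single_le_sum (f := fun i => |M i|) (fun i _ => abs_nonneg _) (Finset.mem_univ i))
  obtain ⟨V', hV'2, hV'e, -⟩ := hRL 8 (EPC_V u b g u' b' g' j d) (EPC_G D j d) (EPC_smooth hPS D hD j d hd) hV hc hbd2
  have fin : ∀ (i : Fin 8) (f : ℂ → ℂ), ContinuousAt f 0 → (∀ y, EPC_V u b g u' b' g' j d y i = f y) →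
      ContDiffOn ℝ 2 f (Metric.ball 0 1) := by
    intro i f hf hfi
    have h1 : ContDiffOn ℝ 2 (fun y => V' y i) (Metric.ball 0 1) := (contDiffOn_pi.1 hV'2) i
    have h2 : ∀ y ∈ Metric.ball (0 : ℂ) 1 \ {0}, f y = V' y i := fun y hy' => by rw [hV'e y hy', hfi y]
    have h3 : ContinuousAt (fun y => V' y i) 0 :=
      (h1.continuousOn.continuousAt (Metric.isOpen_ball.mem_nhds hB0))
    refine h1.congr fun y hyB => ?_
    by_cases hy0 : y = 0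
    · rw [hy0]; exact EPC_ext hf h3 h2
    · exact h2 y ⟨hyB, hy0⟩
  refine ⟨?_, fin 0 _ kb fun _ => rfl, ?_, fin 4 _ kb' fun _ => rfl⟩
  · exact EPC_re (fin 2 _ ku fun _ => rfl)
  · exact EPC_re (fin 6 _ ku' fun _ => rfl)

end

end Pool.Agent.DL
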