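import Pool.Agent.helper22.DL.SpecE1

namespace Pool.Agent.DL

open Matrix Complex MeasureTheory Set Filter Topology
open scoped ComplexOrder Manifold ContDiff ComplexConjugate

noncomputable section

lemma ERF_neg_log_le (t : ℝ) (ht : 0 < t) : -Real.log t ≤ 2 * t ^ (-(1 / 2) : ℝ) := by
  have h1 := Real.log_le_sub_one_of_pos (Real.rpow_pos_of_pos ht (-(1 / 2) : ℝ))
  rw [Real.log_rpow ht] at h1
  linarith

lemma ERF_log_le (t : ℝ) (ht : 0 ≤ t) : |Real.log t| ≤ t + 2 * t ^ (-(1 / 2) : ℝ) := by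
  have hr : 0 ≤ t ^ (-(1 / 2) : ℝ) := Real.rpow_nonneg ht _
  rcases ht.eq_or_lt with h0 | h0
  · rw [← h0]; simp [Real.zero_rpow]
  · rw [abs_le]
    constructor
    · have := ERF_neg_log_le t h0; linarith
    · have := Real.log_le_sub_one_of_pos h0; linarith

lemma ERF_pt (w : ℂ) (hw : 1 + w ≠ 0) :
    |Real.log ‖1 + w‖ - w.re| ≤ 10 * ‖w‖ ^ (3 / 2 : ℝ) * (1 + ‖1 + w‖ ^ (-(1 / 2) : ℝ)) := by
  have ht : 0 < ‖1 + w‖ := norm_pos_iff.2 hw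
  have hr : 0 < ‖1 + w‖ ^ (-(1 / 2) : ℝ) := Real.rpow_pos_of_pos ht _
  have hw0 : 0 ≤ ‖w‖ := norm_nonneg _
  have hp : 0 ≤ ‖w‖ ^ (3 / 2 : ℝ) := Real.rpow_nonneg hw0 _
  by_cases h : ‖w‖ ≤ 1 / 2
  · have h1 : ‖Complex.log (1 + w) - w‖ ≤ ‖w‖ ^ 2 * (1 - ‖w‖)⁻¹ / 2 :=
      Complex.norm_log_one_add_sub_self_le (by linarith)
    have h2 : (1 - ‖w‖)⁻¹ ≤ 2 := by
      rw [inv_le_comm₀ (by linarith) (by norm_num)]; linarith
    have h3 : Real.log ‖1 + w‖ - w.re = (Complex.log (1 + w) - w).re := by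
      rw [Complex.sub_re, Complex.log_re]
    have h4 : |(Complex.log (1 + w) - w).re| ≤ ‖w‖ ^ 2 := by
      refine (Complex.abs_re_le_norm _).trans (h1.trans ?_)
      nlinarith [sq_nonneg ‖w‖]
    have h5 : ‖w‖ ^ 2 ≤ ‖w‖ ^ (3 / 2 : ℝ) := by
      rcases hw0.eq_or_lt with h0 | h0
      · rw [← h0]; simp [Real.zero_rpow]
      · have := Real.rpow_le_rpow_of_exponent_ge h0 (by linarith : ‖w‖ ≤ 1) (by norm_num : (3 / 2 : ℝ) ≤ (2 : ℕ))
        rwa [Real.rpow_natCast] at this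
    rw [h3]
    nlinarith
  · push Not at h
    have hwp : 0 < ‖w‖ := by linarith
    have h1 : |Real.log ‖1 + w‖| ≤ ‖w‖ + 2 * ‖1 + w‖ ^ (-(1 / 2) : ℝ) := by
      rw [abs_le]
      constructor
      · have := ERF_neg_log_le _ ht; linarith
      · have h2 := Real.log_le_sub_one_of_pos ht
        have h3 : ‖1 + w‖ ≤ 1 + ‖w‖ := by
          have := norm_add_le (1 : ℂ) w
          simpa using this
        linarith
    have h2 : |w.re| ≤ ‖w‖ := Complex.abs_re_le_norm w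
    have h3 : |Real.log ‖1 + w‖ - w.re| ≤ 2 * ‖w‖ + 2 * ‖1 + w‖ ^ (-(1 / 2) : ℝ) := by
      have := abs_sub (Real.log ‖1 + w‖) w.re
      linarith
    have h4 : ‖w‖ ^ (3 / 2 : ℝ) = ‖w‖ * ‖w‖ ^ (1 / 2 : ℝ) := by
      rw [show (3 / 2 : ℝ) = 1 + 1 / 2 by norm_num, Real.rpow_add hwp, Real.rpow_one]
    have h5 : 1 / 2 ≤ ‖w‖ ^ (1 / 2 : ℝ) := by
      have h6 : (1 / 4 : ℝ) ^ (1 / 2 : ℝ) ≤ ‖w‖ ^ (1 / 2 : ℝ) :=
        Real.rpow_le_rpow (by norm_num) (by linarith) (by norm_num)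
      have h7 : (1 / 4 : ℝ) ^ (1 / 2 : ℝ) = 1 / 2 := by
        rw [← Real.sqrt_eq_rpow, show (1 / 4 : ℝ) = (1 / 2) ^ 2 by norm_num, Real.sqrt_sq (by norm_num)]
      linarith
    rw [h4]
    have h8 : ‖w‖ ≤ 2 * (‖w‖ * ‖w‖ ^ (1 / 2 : ℝ)) := by nlinarith
    have h9 : 1 ≤ 4 * (‖w‖ * ‖w‖ ^ (1 / 2 : ℝ)) := by nlinarith
    nlinarith

lemma ERF_ker (hB : ∀ s t x y : ℝ, 0 ≤ s → 0 ≤ t → 0 < x → 0 < y → x ^ (-s) * y ^ (-t) ≤ x ^ (-(s + t)) + y ^ (-(s + t)))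
    (z h ξ : ℂ) (h1 : ξ ≠ z) (h2 : ξ ≠ z + h) :
    |Real.log ‖z + h - ξ‖ - Real.log ‖z - ξ‖ - (h / (z - ξ)).re| ≤
      20 * ‖h‖ ^ (3 / 2 : ℝ) * (‖z - ξ‖ ^ (-(3 / 2) : ℝ) + ‖z + h - ξ‖ ^ (-(3 / 2) : ℝ)) := by
  have hx : 0 < ‖z - ξ‖ := norm_pos_iff.2 (sub_ne_zero.2 (Ne.symm h1))
  have hx' : 0 < ‖z + h - ξ‖ := norm_pos_iff.2 (sub_ne_zero.2 (Ne.symm h2))
  have hz0 : z - ξ ≠ 0 := sub_ne_zero.2 (Ne.symm h1)
  have hz1 : z + h - ξ ≠ 0 := sub_ne_zero.2 (Ne.symm h2)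
  have e1 : 1 + h / (z - ξ) = (z + h - ξ) / (z - ξ) := by field_simp; ring
  have h3 := ERF_pt (h / (z - ξ)) (by rw [e1]; exact div_ne_zero hz1 hz0)
  rw [e1, norm_div, norm_div, Real.log_div hx'.ne' hx.ne'] at h3
  have e2 : (‖h‖ / ‖z - ξ‖) ^ (3 / 2 : ℝ) = ‖h‖ ^ (3 / 2 : ℝ) * ‖z - ξ‖ ^ (-(3 / 2) : ℝ) := by
    rw [Real.div_rpow (norm_nonneg _) hx.le, Real.rpow_neg hx.le]; rfl
  have e3 : (‖z + h - ξ‖ / ‖z - ξ‖) ^ (-(1 / 2) : ℝ) = ‖z + h - ξ‖ ^ (-(1 / 2) : ℝ) * ‖z - ξ‖ ^ (1 / 2 : ℝ) := by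
    rw [Real.div_rpow hx'.le hx.le, Real.rpow_neg hx.le]
    rw [div_inv_eq_mul]
  rw [e2, e3] at h3
  have h4 := hB 1 (1 / 2) ‖z - ξ‖ ‖z + h - ξ‖ (by norm_num) (by norm_num) hx hx'
  rw [show -(1 + 1 / 2 : ℝ) = -(3 / 2) by norm_num] at h4
  have e4 : ‖z - ξ‖ ^ (-(3 / 2) : ℝ) * ‖z - ξ‖ ^ (1 / 2 : ℝ) = ‖z - ξ‖ ^ (-1 : ℝ) := by
    rw [← Real.rpow_add hx]; norm_num
  have hh : 0 ≤ ‖h‖ ^ (3 / 2 : ℝ) := Real.rpow_nonneg (norm_nonneg _) _
  have p1 : 0 ≤ ‖z + h - ξ‖ ^ (-(3 / 2) : ℝ) := Real.rpow_nonneg hx'.le _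
  have e5 : 10 * (‖h‖ ^ (3 / 2 : ℝ) * ‖z - ξ‖ ^ (-(3 / 2) : ℝ)) *
      (1 + ‖z + h - ξ‖ ^ (-(1 / 2) : ℝ) * ‖z - ξ‖ ^ (1 / 2 : ℝ)) =
      10 * ‖h‖ ^ (3 / 2 : ℝ) * (‖z - ξ‖ ^ (-(3 / 2) : ℝ) + ‖z - ξ‖ ^ (-1 : ℝ) * ‖z + h - ξ‖ ^ (-(1 / 2) : ℝ)) := by
    rw [← e4]; ring
  rw [e5] at h3
  refine h3.trans ?_
  have h6 : ‖h‖ ^ (3 / 2 : ℝ) * (‖z - ξ‖ ^ (-1 : ℝ) * ‖z + h - ξ‖ ^ (-(1 / 2) : ℝ)) ≤
      ‖h‖ ^ (3 / 2 : ℝ) * (‖z - ξ‖ ^ (-(3 / 2) : ℝ) + ‖z + h - ξ‖ ^ (-(3 / 2) : ℝ)) :=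
    mul_le_mul_of_nonneg_left h4 hh
  have h7 : 0 ≤ ‖h‖ ^ (3 / 2 : ℝ) * ‖z + h - ξ‖ ^ (-(3 / 2) : ℝ) := mul_nonneg hh p1
  nlinarith

theorem ERF (hA : EKA_stmt) (hB : EKB_stmt) (hC : ERC_stmt) : ERF_stmt := by
  intro F z₀ ρ M hρ hF hM
  set B := Metric.ball z₀ ρ with hBdef
  have hM0 : 0 ≤ M := (abs_nonneg _).trans (hM z₀ (Metric.mem_ball_self hρ))
  -- kernels
  set R : ℝ := ‖z₀‖ + ρ with hR
  have hRpos : 0 < R := by positivity
  have hsub : B ⊆ Metric.ball 0 R := by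
    intro z hz
    rw [Metric.mem_ball, dist_zero_right]
    rw [hBdef, Metric.mem_ball, dist_eq_norm] at hz
    calc ‖z‖ = ‖z - z₀ + z₀‖ := by ring_nf
      _ ≤ ‖z - z₀‖ + ‖z₀‖ := norm_add_le _ _
      _ < R := by rw [hR]; linarith
  have hfm : IsFiniteMeasure (volume.restrict B) := ⟨by
    rw [Measure.restrict_apply_univ]; exact measure_ball_lt_top⟩
  obtain ⟨C32, hC32⟩ := hA (3 / 2) R (by norm_num) (by norm_num) hRpos
  obtain ⟨C12, hC12⟩ := hA (1 / 2) R (by norm_num) (by norm_num) hRpos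
  have k32 : ∀ a : ℂ, IntegrableOn (fun ξ : ℂ => ‖a - ξ‖ ^ (-(3 / 2) : ℝ)) B ∧
      ∫ ξ in B, ‖a - ξ‖ ^ (-(3 / 2) : ℝ) ≤ C32 := by
    intro a
    refine ⟨(hC32 a).1.mono_set hsub, le_trans ?_ (hC32 a).2⟩
    exact setIntegral_mono_set (hC32 a).1 (Eventually.of_forall fun ξ => Real.rpow_nonneg (norm_nonneg _) _)
      hsub.eventuallyLE
  have hFm : AEStronglyMeasurable (fun ξ => ((F ξ : ℝ) : ℂ)) (volume.restrict B) :=
    Complex.continuous_ofReal.comp_aestronglyMeasurable hF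
  obtain ⟨C, hCC⟩ := hC ρ M hρ
  obtain ⟨hint, -, hhol⟩ := hCC (fun ξ => ((F ξ : ℝ) : ℂ)) z₀ hFm (fun z hz => by
    rw [Complex.norm_real]; exact hM z hz)
  have hlog : ∀ z : ℂ, IntegrableOn (fun ξ => Real.log ‖z - ξ‖ * F ξ) B := by
    intro z
    have hmeas : AEStronglyMeasurable (fun ξ => Real.log ‖z - ξ‖ * F ξ) (volume.restrict B) := by
      refine AEStronglyMeasurable.mul ?_ hF
      exact (Real.measurable_log.comp (by fun_prop : Measurable fun ξ : ℂ => ‖z - ξ‖)).aestronglyMeasurable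
    have hg : IntegrableOn (fun ξ => (‖z‖ + R + 2 * ‖z - ξ‖ ^ (-(1 / 2) : ℝ)) * M) B := by
      refine Integrable.mul_const ?_ M
      refine Integrable.add (integrable_const _) ?_
      exact ((hC12 z).1.mono_set hsub).const_mul 2
    refine Integrable.mono' hg hmeas ?_
    refine (ae_restrict_iff' Metric.isOpen_ball.measurableSet).2 (Eventually.of_forall fun ξ hξ => ?_)
    rw [norm_mul, Real.norm_eq_abs, Real.norm_eq_abs]
    refine mul_le_mul ?_ (hM ξ hξ) (abs_nonneg _) ?_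
    · refine (ERF_log_le _ (norm_nonneg _)).trans ?_
      have h1 : ‖z - ξ‖ ≤ ‖z‖ + ‖ξ‖ := norm_sub_le _ _
      have h2 : ‖ξ‖ < R := by
        have := hsub hξ
        rwa [Metric.mem_ball, dist_zero_right] at this
      linarith
    · have := Real.rpow_nonneg (norm_nonneg (z - ξ)) (-(1 / 2) : ℝ)
      positivity
  set T : ℂ → ℂ := TC (fun ξ => ((F ξ : ℝ) : ℂ)) B with hT
  -- the estimate
  have hest : ∀ z h : ℂ, |TL F B (z + h) - TL F B z - 2 * (h * T z).re| ≤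
      (2 / Real.pi) * (M * (20 * (C32 + C32))) * ‖h‖ ^ (3 / 2 : ℝ) := by
    intro z h
    have e1 : (h * T z).re = (1 / Real.pi) * ∫ ξ in B, F ξ * (h / (z - ξ)).re := by
      have h1 : h * T z = ((1 / Real.pi : ℝ) : ℂ) * ∫ ξ in B, h * (((F ξ : ℝ) : ℂ) / (z - ξ)) := by
        rw [integral_const_mul, hT]
        unfold TC
        push_cast; ring
      rw [h1, Complex.re_ofReal_mul]
      congr 1
      have h2 : (∫ ξ in B, h * (((F ξ : ℝ) : ℂ) / (z - ξ))).re = ∫ ξ in B, (h * (((F ξ : ℝ) : ℂ) / (z - ξ))).re := by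
        have := integral_re (𝕜 := ℂ) ((hint z).const_mul h)
        exact this.symm
      rw [h2]
      refine integral_congr_ae (Eventually.of_forall fun ξ => ?_)
      show (h * (((F ξ : ℝ) : ℂ) / (z - ξ))).re = F ξ * (h / (z - ξ)).re
      rw [show h * (((F ξ : ℝ) : ℂ) / (z - ξ)) = ((F ξ : ℝ) : ℂ) * (h / (z - ξ)) by ring, Complex.re_ofReal_mul]
    have hint3 : IntegrableOn (fun ξ => F ξ * (h / (z - ξ)).re) B := by
      have h1 := ((hint z).const_mul h).re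
      refine h1.congr (Eventually.of_forall fun ξ => ?_)
      show (h * (((F ξ : ℝ) : ℂ) / (z - ξ))).re = F ξ * (h / (z - ξ)).re
      rw [show h * (((F ξ : ℝ) : ℂ) / (z - ξ)) = ((F ξ : ℝ) : ℂ) * (h / (z - ξ)) by ring, Complex.re_ofReal_mul]
    have e2 : TL F B (z + h) - TL F B z - 2 * (h * T z).re =
        (2 / Real.pi) * ∫ ξ in B, F ξ * (Real.log ‖z + h - ξ‖ - Real.log ‖z - ξ‖ - (h / (z - ξ)).re) := by
      rw [e1]
      have : ∫ ξ in B, F ξ * (Real.log ‖z + h - ξ‖ - Real.log ‖z - ξ‖ - (h / (z - ξ)).re) =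
          (∫ ξ in B, Real.log ‖z + h - ξ‖ * F ξ) - (∫ ξ in B, Real.log ‖z - ξ‖ * F ξ) -
            ∫ ξ in B, F ξ * (h / (z - ξ)).re := by
        rw [← integral_sub (hlog (z + h)) (hlog z)]
        have h12 : Integrable (fun ξ => Real.log ‖z + h - ξ‖ * F ξ - Real.log ‖z - ξ‖ * F ξ) (volume.restrict B) :=
          (hlog (z + h)).sub (hlog z)
        rw [← integral_sub h12 hint3]
        refine integral_congr_ae (Eventually.of_forall fun ξ => ?_)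
        show F ξ * (Real.log ‖z + h - ξ‖ - Real.log ‖z - ξ‖ - (h / (z - ξ)).re) =
          Real.log ‖z + h - ξ‖ * F ξ - Real.log ‖z - ξ‖ * F ξ - F ξ * (h / (z - ξ)).re
        ring
      rw [this]
      unfold TL
      ring
    rw [e2, abs_mul, abs_of_pos (by positivity : (0 : ℝ) < 2 / Real.pi), mul_assoc]
    refine mul_le_mul_of_nonneg_left ?_ (by positivity)
    have hgint : Integrable (fun ξ => M * (20 * ‖h‖ ^ (3 / 2 : ℝ)) *
        (‖z - ξ‖ ^ (-(3 / 2) : ℝ) + ‖z + h - ξ‖ ^ (-(3 / 2) : ℝ))) (volume.restrict B) :=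
      ((k32 z).1.add (k32 (z + h)).1).const_mul _
    have hne : ∀ᵐ ξ ∂(volume : Measure ℂ), ξ ∉ ({z, z + h} : Set ℂ) :=
      (Set.Finite.countable (Set.toFinite _)).ae_notMem volume
    have hbd : ∀ᵐ ξ ∂(volume.restrict B), ‖F ξ * (Real.log ‖z + h - ξ‖ - Real.log ‖z - ξ‖ - (h / (z - ξ)).re)‖ ≤
        M * (20 * ‖h‖ ^ (3 / 2 : ℝ)) * (‖z - ξ‖ ^ (-(3 / 2) : ℝ) + ‖z + h - ξ‖ ^ (-(3 / 2) : ℝ)) := by
      refine (ae_restrict_iff' Metric.isOpen_ball.measurableSet).2 ?_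
      filter_upwards [hne] with ξ hξ hξB
      have h1 : ξ ≠ z := fun h => hξ (by simp [h])
      have h2 : ξ ≠ z + h := fun h => hξ (by simp [h])
      rw [norm_mul, Real.norm_eq_abs, Real.norm_eq_abs, mul_assoc]
      exact mul_le_mul (hM ξ hξB) (ERF_ker hB.1 z h ξ h1 h2) (abs_nonneg _) hM0
    have h1 := norm_integral_le_of_norm_le hgint hbd
    rw [Real.norm_eq_abs] at h1
    refine h1.trans ?_
    rw [integral_const_mul, integral_add (k32 z).1 (k32 (z + h)).1]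
    have h2 := (k32 z).2
    have h3 := (k32 (z + h)).2
    have h4 : 0 ≤ ‖h‖ ^ (3 / 2 : ℝ) := Real.rpow_nonneg (norm_nonneg _) _
    calc M * (20 * ‖h‖ ^ (3 / 2 : ℝ)) * ((∫ ξ in B, ‖z - ξ‖ ^ (-(3 / 2) : ℝ)) + ∫ ξ in B, ‖z + h - ξ‖ ^ (-(3 / 2) : ℝ))
        ≤ M * (20 * ‖h‖ ^ (3 / 2 : ℝ)) * (C32 + C32) := mul_le_mul_of_nonneg_left (by linarith) (by positivity)
      _ = M * (20 * (C32 + C32)) * ‖h‖ ^ (3 / 2 : ℝ) := by ring
  -- derivative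
  set L : ℂ → (ℂ →L[ℝ] ℝ) := fun z => (2 : ℝ) • (Complex.reCLM.comp ((ContinuousLinearMap.mul ℝ ℂ) (T z))) with hL
  have hLapp : ∀ z v, L z v = 2 * (v * T z).re := by
    intro z v
    simp only [hL, _root_.smul_apply, ContinuousLinearMap.comp_apply, Complex.reCLM_apply,
      ContinuousLinearMap.mul_apply', smul_eq_mul]
    rw [mul_comm (T z) v]
  have hderiv : ∀ z, HasFDerivAt (TL F B) (L z) z := by
    intro z
    rw [hasFDerivAt_iff_isLittleO_nhds_zero, Asymptotics.isLittleO_iff]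
    intro c hc
    set K : ℝ := (2 / Real.pi) * (M * (20 * (C32 + C32))) with hK
    have hcont : Tendsto (fun h : ℂ => |K| * ‖h‖ ^ (1 / 2 : ℝ)) (𝓝 0) (𝓝 0) := by
      have h1 : Continuous (fun h : ℂ => |K| * ‖h‖ ^ (1 / 2 : ℝ)) :=
        continuous_const.mul (continuous_norm.rpow_const (fun _ => Or.inr (by norm_num)))
      have h2 := h1.tendsto 0
      simpa [Real.zero_rpow] using h2
    filter_upwards [hcont.eventually_lt_const hc] with h hh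
    rw [hLapp, Real.norm_eq_abs]
    refine (hest z h).trans ?_
    have h1 : ‖h‖ ^ (3 / 2 : ℝ) = ‖h‖ ^ (1 / 2 : ℝ) * ‖h‖ := by
      rcases (norm_nonneg h).eq_or_lt with h0 | h0
      · rw [← h0]; simp [Real.zero_rpow]
      · rw [show (3 / 2 : ℝ) = 1 / 2 + 1 by norm_num, Real.rpow_add h0, Real.rpow_one]
    rw [h1, ← mul_assoc]
    refine mul_le_mul_of_nonneg_right (le_trans ?_ hh.le) (norm_nonneg _)
    exact mul_le_mul_of_nonneg_right (le_abs_self K) (Real.rpow_nonneg (norm_nonneg _) _)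
  have hTcont : Continuous T := by
    rw [continuous_iff_continuousAt]
    intro z
    rw [ContinuousAt, tendsto_iff_norm_sub_tendsto_zero]
    have h1 : Continuous (fun w : ℂ => C * ‖w - z‖ ^ (1 / 2 : ℝ)) :=
      continuous_const.mul ((continuous_id.sub continuous_const).norm.rpow_const (fun _ => Or.inr (by norm_num)))
    have h2 := h1.tendsto z
    simp only [sub_self, norm_zero] at h2
    rw [Real.zero_rpow (by norm_num), mul_zero] at h2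
    exact squeeze_zero (fun _ => norm_nonneg _) (fun w => hhol w z) h2
  have hLcont : Continuous L := by
    have h1 : Continuous fun z => (ContinuousLinearMap.mul ℝ ℂ) (T z) :=
      (ContinuousLinearMap.mul ℝ ℂ).continuous.comp hTcont
    have h2 : Continuous fun z => Complex.reCLM.comp ((ContinuousLinearMap.mul ℝ ℂ) (T z)) :=
      (ContinuousLinearMap.compL ℝ ℂ ℂ ℝ Complex.reCLM).continuous.comp h1
    exact h2.const_smul (2 : ℝ)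
  refine ⟨contDiff_one_iff_hasFDerivAt.2 ⟨L, hLcont, hderiv⟩, ?_⟩
  intro z
  have h1 : HasFDerivAt (fun w => ((TL F B w : ℝ) : ℂ)) (Complex.ofRealCLM.comp (L z)) z :=
    Complex.ofRealCLM.hasFDerivAt.comp z (hderiv z)
  unfold dz
  rw [h1.fderiv]
  simp only [ContinuousLinearMap.comp_apply, Complex.ofRealCLM_apply, hLapp, one_mul]
  apply Complex.ext
  · simp
  · simp

end

end Pool.Agent.DL
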